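import Mathlib

set_option autoImplicit false

namespace Pool.Agent.H963R5

open Finset

/-- A finite family of reals in `[α, β]` pairwise at distance at least `m` has at most
`1 + (β - α) / m` members. -/
theorem sep_card {ι : Type*} (S : Finset ι) (f : ι → ℝ) (m α β : ℝ) (hm : 0 < m)
    (hab : α ≤ β)
    (hr : ∀ x ∈ S, α ≤ f x ∧ f x ≤ β)
    (hs : ∀ x ∈ S, ∀ y ∈ S, x ≠ y → m ≤ |f x - f y|) :
    (S.card : ℝ) ≤ 1 + (β - α) / m := by
  classical
  have hnn : 0 ≤ (β - α) / m := div_nonneg (by linarith) hm.le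
  have hinj : Set.InjOn (fun x => ⌊(f x - α) / m⌋₊) (S : Set ι) := by
    intro x hx y hy hxy
    by_contra hne
    have h1 := hs x hx y hy hne
    have hx0 : 0 ≤ (f x - α) / m := div_nonneg (by linarith [(hr x hx).1]) hm.le
    have hy0 : 0 ≤ (f y - α) / m := div_nonneg (by linarith [(hr y hy).1]) hm.le
    have h2 : |(f x - α) / m - (f y - α) / m| < 1 := by
      have ex1 := Nat.floor_le hx0
      have ex2 := Nat.lt_floor_add_one ((f x - α) / m)
      have ey1 := Nat.floor_le hy0
      have ey2 := Nat.lt_floor_add_one ((f y - α) / m)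
      have hxy' : (⌊(f x - α) / m⌋₊ : ℝ) = (⌊(f y - α) / m⌋₊ : ℝ) := by
        exact_mod_cast hxy
      rw [abs_lt]
      constructor <;> linarith
    have h3 : (f x - α) / m - (f y - α) / m = (f x - f y) / m := by ring
    rw [h3, abs_div, abs_of_pos hm, div_lt_one hm] at h2
    linarith
  have hsub : S.image (fun x => ⌊(f x - α) / m⌋₊) ⊆ Finset.range (⌊(β - α) / m⌋₊ + 1) := by
    intro k hk
    rw [Finset.mem_image] at hk
    obtain ⟨x, hx, rfl⟩ := hk
    rw [Finset.mem_range]
    apply Nat.lt_succ_of_le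
    apply Nat.floor_le_floor
    apply div_le_div_of_nonneg_right _ hm.le
    linarith [(hr x hx).2]
  have hc := Finset.card_le_card hsub
  rw [Finset.card_image_of_injOn hinj, Finset.card_range] at hc
  have h4 : (S.card : ℝ) ≤ (⌊(β - α) / m⌋₊ : ℝ) + 1 := by exact_mod_cast hc
  have h5 := Nat.floor_le hnn
  linarith

/-- Fibre counting, real version. -/
theorem card_le_fib {ι κ : Type*} [DecidableEq κ] (S : Finset ι) (g : ι → κ) (A B : ℝ)
    (hA : ((S.image g).card : ℝ) ≤ A) (hB0 : 0 ≤ B)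
    (hB : ∀ k ∈ S.image g, ((S.filter (fun x => g x = k)).card : ℝ) ≤ B) :
    (S.card : ℝ) ≤ A * B := by
  have h1 : S.card = ∑ k ∈ S.image g, (S.filter (fun x => g x = k)).card :=
    Finset.card_eq_sum_card_image g S
  rw [h1]
  push_cast
  calc ∑ k ∈ S.image g, ((S.filter (fun x => g x = k)).card : ℝ)
      ≤ ∑ _k ∈ S.image g, B := Finset.sum_le_sum hB
    _ = ((S.image g).card : ℝ) * B := by rw [Finset.sum_const, nsmul_eq_mul]
    _ ≤ A * B := mul_le_mul_of_nonneg_right hA hB0

/-- one coordinate of the near-rational counting lemma -/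
theorem coord_count (U : ℝ) (η z : ℝ) (n₀ : ℕ) (hn₀ : 1 ≤ n₀) (hη : 0 < η) (hU0 : 0 ≤ U)
    (hz : |z| < 2 * η) (hn₀η : (n₀ : ℝ) * η < 1 / 2)
    (S : Finset ℕ) (c : ℕ → ℤ)
    (hU : ∀ n ∈ S, 0 < n ∧ (n : ℝ) < U)
    (hsep : ∀ n ∈ S, ∀ m ∈ S, n ≠ m → (n₀ : ℝ) ≤ |(n : ℝ) - m|)
    (hc0 : ∀ n ∈ S, c n ≠ 0)
    (hc : ∀ n ∈ S, |(c n : ℝ) - n * z| < n₀ * η) :
    (S.card : ℝ) ≤ 8 * U * η := by
  classical
  have hn₀' : (1 : ℝ) ≤ n₀ := by exact_mod_cast hn₀
  rcases S.eq_empty_or_nonempty with rfl | ⟨n1, hn1⟩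
  · simp; positivity
  -- basic facts about every member
  have key : ∀ n ∈ S, (1 : ℝ) ≤ ((c n).natAbs : ℝ) ∧
      |((c n).natAbs : ℝ) - n * abs z| < n₀ * η := by
    intro n hn
    have h1 : 1 ≤ (c n).natAbs := Nat.one_le_iff_ne_zero.mpr (by simpa using hc0 n hn)
    refine ⟨by exact_mod_cast h1, ?_⟩
    have h2 : (((c n).natAbs : ℕ) : ℝ) = |(c n : ℝ)| := by
      rw [← Int.cast_abs, Int.abs_eq_natAbs]; simp
    have h3 : (n : ℝ) * |z| = |(n : ℝ) * z| := by rw [abs_mul, Nat.abs_cast]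
    rw [h2, h3]
    exact lt_of_le_of_lt (abs_abs_sub_abs_le_abs_sub _ _) (hc n hn)
  have hzpos : 0 < |z| := by
    by_contra h
    have h0 : |z| = 0 := le_antisymm (not_lt.mp h) (abs_nonneg z)
    have := (key n1 hn1).2
    rw [h0, mul_zero, sub_zero, abs_of_nonneg (by positivity)] at this
    linarith [(key n1 hn1).1]
  have hkub : ∀ n ∈ S, ((c n).natAbs : ℝ) ≤ 2 * U * |z| := by
    intro n hn
    obtain ⟨h1, h2⟩ := key n hn
    rw [abs_lt] at h2
    have h3 : (n : ℝ) * |z| < U * |z| := mul_lt_mul_of_pos_right (hU n hn).2 hzpos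
    nlinarith
  have himg : (((S.image (fun n => (c n).natAbs)).card : ℕ) : ℝ) ≤ 2 * U * |z| := by
    have hsub : S.image (fun n => (c n).natAbs) ⊆ Finset.Icc 1 ⌊2 * U * |z|⌋₊ := by
      intro k hk
      rw [Finset.mem_image] at hk
      obtain ⟨n, hn, rfl⟩ := hk
      rw [Finset.mem_Icc]
      exact ⟨by exact_mod_cast (key n hn).1, Nat.le_floor (hkub n hn)⟩
    have := Finset.card_le_card hsub
    rw [Nat.card_Icc, Nat.add_sub_cancel] at this
    calc (((S.image (fun n => (c n).natAbs)).card : ℕ) : ℝ) ≤ (⌊2 * U * |z|⌋₊ : ℝ) := by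
          exact_mod_cast this
      _ ≤ 2 * U * |z| := Nat.floor_le (by positivity)
  have hfib : ∀ k ∈ S.image (fun n => (c n).natAbs),
      ((S.filter (fun n => (c n).natAbs = k)).card : ℝ) ≤ 4 * η / |z| := by
    intro k _
    have h1 := sep_card (S.filter (fun n => (c n).natAbs = k)) (fun n => (n : ℝ)) n₀
      ((k - n₀ * η) / |z|) ((k + n₀ * η) / |z|) (by linarith)
      (by apply div_le_div_of_nonneg_right _ hzpos.le
          have : 0 ≤ (n₀ : ℝ) * η := by positivity
          linarith)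
      (by
        intro n hn
        rw [Finset.mem_filter] at hn
        have h2 := (key n hn.1).2
        rw [hn.2, abs_lt] at h2
        constructor
        · rw [div_le_iff₀ hzpos]; linarith
        · rw [le_div_iff₀ hzpos]; linarith)
      (by
        intro n hn m hm hne
        rw [Finset.mem_filter] at hn hm
        exact hsep n hn.1 m hm.1 hne)
    have h3 : ((k + n₀ * η) / |z| - (k - n₀ * η) / |z|) / (n₀ : ℝ) = 2 * η / |z| := by
      field_simp
      ring
    rw [h3] at h1
    have h4 : 1 ≤ 2 * η / |z| := by rw [le_div_iff₀ hzpos]; linarith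
    have h5 : 4 * η / |z| = 2 * η / |z| + 2 * η / |z| := by ring
    linarith
  have := card_le_fib S (fun n => (c n).natAbs) (2 * U * |z|) (4 * η / |z|) himg
    (by positivity) hfib
  calc (S.card : ℝ) ≤ 2 * U * |z| * (4 * η / |z|) := this
    _ = 8 * U * η := by field_simp; ring

/-- Near-rational structure: apart from multiples of one vector `(n₀, N₀)`, only few `n < U`
satisfy `‖n y‖ < η`. -/
theorem near_rational (y : ℝ × ℝ) (η : ℝ) (hη : 0 < η) (hη4 : η ≤ 1 / 4) (U : ℝ) (hU0 : 0 ≤ U) :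
    ∃ (n₀ : ℕ) (N₀ : ℤ × ℤ), 1 ≤ n₀ ∧
      (∀ (n : ℕ) (N : ℤ × ℤ), (n₀ : ℤ) * N.1 = n * N₀.1 → (n₀ : ℤ) * N.2 = n * N₀.2 → n₀ ∣ n) ∧
      ∀ S : Finset ℕ, (∀ n ∈ S, 0 < n ∧ (n : ℝ) < U ∧ ∃ N : ℤ × ℤ,
          |(n : ℝ) * y.1 - N.1| < η ∧ |(n : ℝ) * y.2 - N.2| < η ∧
          ¬ ((n₀ : ℤ) * N.1 = n * N₀.1 ∧ (n₀ : ℤ) * N.2 = n * N₀.2)) →
        (S.card : ℝ) ≤ 16 * U * η := by
  classical
  let Pr : ℕ → Prop := fun n => 1 ≤ n ∧ ∃ N : ℤ × ℤ,
    |(n : ℝ) * y.1 - N.1| < 2 * η ∧ |(n : ℝ) * y.2 - N.2| < 2 * η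
  by_cases hex : ∃ n, Pr n
  · -- minimal one
    let n₀ := Nat.find hex
    have hn₀ : Pr n₀ := Nat.find_spec hex
    have hmin : ∀ m, Pr m → n₀ ≤ m := fun m hm => Nat.find_min' hex hm
    obtain ⟨h1n₀, N₀, hN₀1, hN₀2⟩ := hn₀
    refine ⟨n₀, N₀, h1n₀, ?_, ?_⟩
    · -- primitivity
      intro n N e1 e2
      let g := Nat.gcd n₀ n
      have hgpos : 0 < g := Nat.gcd_pos_of_pos_left _ h1n₀
      obtain ⟨m, hm⟩ : g ∣ n₀ := Nat.gcd_dvd_left _ _
      obtain ⟨n', hn'⟩ : g ∣ n := Nat.gcd_dvd_right _ _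
      have hcop : Nat.Coprime m n' := by
        have h := Nat.coprime_div_gcd_div_gcd (m := n₀) (n := n) hgpos
        have e1 : n₀ / Nat.gcd n₀ n = m := by
          change n₀ / g = m
          rw [hm, Nat.mul_div_cancel_left _ hgpos]
        have e2 : n / Nat.gcd n₀ n = n' := by
          change n / g = n'
          rw [hn', Nat.mul_div_cancel_left _ hgpos]
        rw [e1, e2] at h
        exact h
      have hm1 : 1 ≤ m := by
        rcases Nat.eq_zero_or_pos m with h | h
        · rw [h] at hm; omega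
        · exact h
      have hdiv : ∀ a b : ℤ, (n₀ : ℤ) * a = n * b → (m : ℤ) ∣ b := by
        intro a b hab
        have h1 : (m : ℤ) * a = n' * b := by
          have : (g : ℤ) * (m * a) = g * (n' * b) := by
            have e1 : (n₀ : ℤ) = g * m := by exact_mod_cast hm
            have e2 : (n : ℤ) = g * n' := by exact_mod_cast hn'
            rw [e1, e2] at hab
            linarith
          exact mul_left_cancel₀ (by exact_mod_cast hgpos.ne') this
        have h2 : (m : ℤ) ∣ n' * b := ⟨a, h1.symm⟩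
        exact IsCoprime.dvd_of_dvd_mul_left (Nat.isCoprime_iff_coprime.mpr hcop) h2
      obtain ⟨b1, hb1⟩ := hdiv _ _ e1
      obtain ⟨b2, hb2⟩ := hdiv _ _ e2
      have hmr : (1 : ℝ) ≤ m := by exact_mod_cast hm1
      have hPg : Pr g := by
        refine ⟨hgpos, (b1, b2), ?_, ?_⟩
        · have e : (n₀ : ℝ) * y.1 - N₀.1 = m * ((g : ℝ) * y.1 - b1) := by
            rw [hm, hb1]; push_cast; ring
          rw [e, abs_mul, Nat.abs_cast] at hN₀1
          have := abs_nonneg ((g : ℝ) * y.1 - b1)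
          nlinarith
        · have e : (n₀ : ℝ) * y.2 - N₀.2 = m * ((g : ℝ) * y.2 - b2) := by
            rw [hm, hb2]; push_cast; ring
          rw [e, abs_mul, Nat.abs_cast] at hN₀2
          have := abs_nonneg ((g : ℝ) * y.2 - b2)
          nlinarith
      have hle := hmin g hPg
      have hgn : g ∣ n := Nat.gcd_dvd_right _ _
      have : g = n₀ := le_antisymm (Nat.le_of_dvd h1n₀ (Nat.gcd_dvd_left _ _)) hle
      rw [← this]; exact hgn
    · intro S hS
      have hS' : ∀ n ∈ S, ∃ N : ℤ × ℤ,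
          |(n : ℝ) * y.1 - N.1| < η ∧ |(n : ℝ) * y.2 - N.2| < η ∧
          ¬ ((n₀ : ℤ) * N.1 = n * N₀.1 ∧ (n₀ : ℤ) * N.2 = n * N₀.2) := fun n hn => (hS n hn).2.2
      choose! G hG using hS'
      -- separation
      have hsep : ∀ n ∈ S, ∀ m ∈ S, n ≠ m → (n₀ : ℝ) ≤ |(n : ℝ) - m| := by
        have aux : ∀ n ∈ S, ∀ m ∈ S, m < n → (n₀ : ℝ) ≤ |(n : ℝ) - m| := by
          intro n hn m hm hlt
          have h1 : Pr (n - m) := by
            refine ⟨by omega, (G n - G m), ?_, ?_⟩
            · have := (hG n hn).1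
              have := (hG m hm).1
              rw [abs_lt] at *
              push_cast [Nat.cast_sub hlt.le, Prod.fst_sub]
              constructor <;> linarith
            · have := (hG n hn).2.1
              have := (hG m hm).2.1
              rw [abs_lt] at *
              push_cast [Nat.cast_sub hlt.le, Prod.snd_sub]
              constructor <;> linarith
          have h2 := hmin _ h1
          have h3 : ((n₀ : ℕ) : ℝ) ≤ ((n - m : ℕ) : ℝ) := by exact_mod_cast h2
          rw [Nat.cast_sub hlt.le] at h3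
          exact h3.trans (le_abs_self _)
        intro n hn m hm hne
        rcases lt_or_gt_of_ne hne with h | h
        · rw [abs_sub_comm]; exact aux m hm n hn h
        · exact aux n hn m hm h
      rcases S.eq_empty_or_nonempty with rfl | ⟨n1, hn1⟩
      · simp; positivity
      by_cases hbig : (1 : ℝ) / 2 ≤ n₀ * η
      · -- all elements exceed n₀
        have hgt : ∀ n ∈ S, (n₀ : ℝ) ≤ n := by
          intro n hn
          have : Pr n := ⟨(hS n hn).1, G n, by linarith [(hG n hn).1], by linarith [(hG n hn).2.1]⟩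
          exact_mod_cast hmin n this
        have hU1 : (n₀ : ℝ) ≤ U := (hgt n1 hn1).trans (hS n1 hn1).2.1.le
        have h1 := sep_card S (fun n => (n : ℝ)) n₀ n₀ U (by exact_mod_cast h1n₀) hU1
          (fun n hn => ⟨hgt n hn, (hS n hn).2.1.le⟩) hsep
        have hn₀pos : (0 : ℝ) < n₀ := by exact_mod_cast h1n₀
        have h2 : 1 + (U - n₀) / (n₀ : ℝ) = U / n₀ := by field_simp; ring
        rw [h2] at h1
        have h3 : U / n₀ ≤ 2 * U * η := by
          rw [div_le_iff₀ hn₀pos]
          nlinarith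
        have h4 : 0 ≤ U * η := by positivity
        nlinarith
      · push Not at hbig
        let c1 : ℕ → ℤ := fun n => (n₀ : ℤ) * (G n).1 - n * N₀.1
        let c2 : ℕ → ℤ := fun n => (n₀ : ℤ) * (G n).2 - n * N₀.2
        have hn₀pos : (0 : ℝ) < n₀ := by exact_mod_cast h1n₀
        have hA1 := coord_count U η ((n₀ : ℝ) * y.1 - N₀.1) n₀ h1n₀ hη hU0 hN₀1 hbig
          (S.filter (fun n => c1 n ≠ 0)) c1
          (fun n hn => ⟨(hS n (Finset.mem_filter.mp hn).1).1, (hS n (Finset.mem_filter.mp hn).1).2.1⟩)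
          (fun n hn m hm hne => hsep n (Finset.mem_filter.mp hn).1 m (Finset.mem_filter.mp hm).1 hne)
          (fun n hn => (Finset.mem_filter.mp hn).2)
          (by
            intro n hn
            have h1 := (hG n (Finset.mem_filter.mp hn).1).1
            have e : ((c1 n : ℤ) : ℝ) - n * ((n₀ : ℝ) * y.1 - N₀.1)
                = n₀ * (-((n : ℝ) * y.1 - (G n).1)) := by
              simp only [c1]; push_cast; ring
            rw [e, abs_mul, Nat.abs_cast, abs_neg]
            exact mul_lt_mul_of_pos_left h1 hn₀pos)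
        have hA2 := coord_count U η ((n₀ : ℝ) * y.2 - N₀.2) n₀ h1n₀ hη hU0 hN₀2 hbig
          (S.filter (fun n => c2 n ≠ 0)) c2
          (fun n hn => ⟨(hS n (Finset.mem_filter.mp hn).1).1, (hS n (Finset.mem_filter.mp hn).1).2.1⟩)
          (fun n hn m hm hne => hsep n (Finset.mem_filter.mp hn).1 m (Finset.mem_filter.mp hm).1 hne)
          (fun n hn => (Finset.mem_filter.mp hn).2)
          (by
            intro n hn
            have h1 := (hG n (Finset.mem_filter.mp hn).1).2.1
            have e : ((c2 n : ℤ) : ℝ) - n * ((n₀ : ℝ) * y.2 - N₀.2)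
                = n₀ * (-((n : ℝ) * y.2 - (G n).2)) := by
              simp only [c2]; push_cast; ring
            rw [e, abs_mul, Nat.abs_cast, abs_neg]
            exact mul_lt_mul_of_pos_left h1 hn₀pos)
        have hsub : S ⊆ S.filter (fun n => c1 n ≠ 0) ∪ S.filter (fun n => c2 n ≠ 0) := by
          intro n hn
          have h := (hG n hn).2.2
          rw [Finset.mem_union, Finset.mem_filter, Finset.mem_filter]
          by_cases h1 : c1 n = 0
          · right
            refine ⟨hn, fun h2 => h ⟨?_, ?_⟩⟩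
            · simp only [c1] at h1; linarith
            · simp only [c2] at h2; linarith
          · exact Or.inl ⟨hn, h1⟩
        have hcard := (Finset.card_le_card hsub).trans (Finset.card_union_le _ _)
        have hcard' : (S.card : ℝ) ≤ ((S.filter (fun n => c1 n ≠ 0)).card : ℝ)
            + ((S.filter (fun n => c2 n ≠ 0)).card : ℝ) := by exact_mod_cast hcard
        linarith
  · refine ⟨1, (0, 0), le_rfl, fun n _ _ _ => one_dvd n, ?_⟩
    intro S hS
    have : S = ∅ := by
      rw [Finset.eq_empty_iff_forall_notMem]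
      intro n hn
      obtain ⟨h0, _, N, h1, h2, _⟩ := hS n hn
      exact hex ⟨n, h0, N, by linarith, by linarith⟩
    rw [this]; simp; positivity

end Pool.Agent.H963R5
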