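import Mathlib

set_option autoImplicit false

namespace Pool.Agent.H963R5

open MeasureTheory Set Filter Metric
open scoped Topology ENNReal

/-- Chung–Erdős inequality. -/
theorem chung_erdos {α ι : Type*} [MeasurableSpace α] (μ : Measure α) (F : Finset ι)
    (A : ι → Set α) (hA : ∀ i ∈ F, MeasurableSet (A i)) (hfin : ∀ i ∈ F, μ (A i) ≠ ∞) :
    (∑ i ∈ F, μ.real (A i)) ^ 2 ≤
      μ.real (⋃ i ∈ F, A i) * ∑ i ∈ F, ∑ j ∈ F, μ.real (A i ∩ A j) := by
  classical
  set U : Set α := ⋃ i ∈ F, A i with hU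
  have hUm : MeasurableSet U := Finset.measurableSet_biUnion F hA
  have hUfin : μ U ≠ ∞ := by
    rw [hU]
    refine ne_of_lt (lt_of_le_of_lt (measure_biUnion_finset_le F A) ?_)
    exact ENNReal.sum_lt_top.mpr (fun i hi => lt_top_iff_ne_top.mpr (hfin i hi))
  have hsub : ∀ i ∈ F, A i ⊆ U := fun i hi => Set.subset_biUnion_of_mem (u := A) hi
  have hint : ∀ i ∈ F, Integrable ((A i).indicator (fun _ => (1 : ℝ))) μ := fun i hi =>
    (integrable_indicator_iff (hA i hi)).mpr (integrableOn_const (hfin i hi))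
  have hint2 : ∀ i ∈ F, ∀ j ∈ F, Integrable ((A i ∩ A j).indicator (fun _ => (1 : ℝ))) μ :=
    fun i hi j hj => (integrable_indicator_iff ((hA i hi).inter (hA j hj))).mpr
      (integrableOn_const (ne_of_lt (lt_of_le_of_lt (measure_mono Set.inter_subset_left)
        (lt_top_iff_ne_top.mpr (hfin i hi)))))
  have hintU : Integrable (U.indicator (fun _ => (1 : ℝ))) μ :=
    (integrable_indicator_iff hUm).mpr (integrableOn_const hUfin)
  have hval : ∀ (s : Set α), MeasurableSet s →
      ∫ x, s.indicator (fun _ => (1 : ℝ)) x ∂μ = μ.real s := by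
    intro s hs
    rw [integral_indicator hs]
    simp
  set S := ∑ i ∈ F, μ.real (A i) with hS
  set M := ∑ i ∈ F, ∑ j ∈ F, μ.real (A i ∩ A j) with hM
  have hpoly : ∀ t : ℝ, 0 ≤ t ^ 2 * μ.real U - 2 * t * S + M := by
    intro t
    have hpt : ∀ x, (t * U.indicator (fun _ => (1 : ℝ)) x
        - ∑ i ∈ F, (A i).indicator (fun _ => (1 : ℝ)) x) ^ 2
        = t ^ 2 * U.indicator (fun _ => (1 : ℝ)) x
          - 2 * t * ∑ i ∈ F, (A i).indicator (fun _ => (1 : ℝ)) x
          + ∑ i ∈ F, ∑ j ∈ F, (A i ∩ A j).indicator (fun _ => (1 : ℝ)) x := by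
      intro x
      have e1 : (U.indicator (fun _ => (1 : ℝ)) x) ^ 2 = U.indicator (fun _ => (1 : ℝ)) x := by
        by_cases hx : x ∈ U <;> simp [hx]
      have e2 : U.indicator (fun _ => (1 : ℝ)) x * ∑ i ∈ F, (A i).indicator (fun _ => (1 : ℝ)) x
          = ∑ i ∈ F, (A i).indicator (fun _ => (1 : ℝ)) x := by
        rw [Finset.mul_sum]
        apply Finset.sum_congr rfl
        intro i hi
        by_cases hx : x ∈ A i
        · have : x ∈ U := hsub i hi hx
          simp [hx, this]
        · simp [hx]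
      have e3 : (∑ i ∈ F, (A i).indicator (fun _ => (1 : ℝ)) x) ^ 2
          = ∑ i ∈ F, ∑ j ∈ F, (A i ∩ A j).indicator (fun _ => (1 : ℝ)) x := by
        rw [sq, Finset.sum_mul_sum]
        apply Finset.sum_congr rfl
        intro i _
        apply Finset.sum_congr rfl
        intro j _
        by_cases hi : x ∈ A i <;> by_cases hj : x ∈ A j <;> simp [hi, hj]
      calc (t * U.indicator (fun _ => (1 : ℝ)) x
        - ∑ i ∈ F, (A i).indicator (fun _ => (1 : ℝ)) x) ^ 2
          = t ^ 2 * (U.indicator (fun _ => (1 : ℝ)) x) ^ 2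
            - 2 * t * (U.indicator (fun _ => (1 : ℝ)) x *
              ∑ i ∈ F, (A i).indicator (fun _ => (1 : ℝ)) x)
            + (∑ i ∈ F, (A i).indicator (fun _ => (1 : ℝ)) x) ^ 2 := by ring
        _ = _ := by rw [e1, e2, e3]
    have h0 : 0 ≤ ∫ x, (t * U.indicator (fun _ => (1 : ℝ)) x
        - ∑ i ∈ F, (A i).indicator (fun _ => (1 : ℝ)) x) ^ 2 ∂μ :=
      integral_nonneg (fun x => sq_nonneg _)
    have hI1 : Integrable (fun x => ∑ i ∈ F, (A i).indicator (fun _ => (1 : ℝ)) x) μ :=
      integrable_finsetSum F hint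
    have hI2 : Integrable (fun x => ∑ i ∈ F, ∑ j ∈ F,
        (A i ∩ A j).indicator (fun _ => (1 : ℝ)) x) μ :=
      integrable_finsetSum F (fun i hi => integrable_finsetSum F (fun j hj => hint2 i hi j hj))
    have h1 : ∫ x, (t * U.indicator (fun _ => (1 : ℝ)) x
        - ∑ i ∈ F, (A i).indicator (fun _ => (1 : ℝ)) x) ^ 2 ∂μ
        = t ^ 2 * μ.real U - 2 * t * S + M := by
      rw [integral_congr_ae (Filter.Eventually.of_forall hpt)]
      rw [integral_add (by exact (hintU.const_mul _).sub (hI1.const_mul _)) hI2,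
        integral_sub (hintU.const_mul _) (hI1.const_mul _), integral_const_mul,
        integral_const_mul, hval U hUm, integral_finsetSum F hint]
      congr 1
      · congr 1
        congr 1
        apply Finset.sum_congr rfl
        intro i hi
        exact hval _ (hA i hi)
      · rw [integral_finsetSum F (fun i hi => integrable_finsetSum F (fun j hj => hint2 i hi j hj))]
        apply Finset.sum_congr rfl
        intro i hi
        rw [integral_finsetSum F (fun j hj => hint2 i hi j hj)]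
        apply Finset.sum_congr rfl
        intro j hj
        exact hval _ ((hA i hi).inter (hA j hj))
    linarith
  have hSnn : 0 ≤ S := Finset.sum_nonneg (fun i _ => measureReal_nonneg)
  have hMnn : 0 ≤ M := Finset.sum_nonneg (fun i _ => Finset.sum_nonneg (fun j _ => measureReal_nonneg))
  rcases eq_or_lt_of_le (measureReal_nonneg (μ := μ) (s := U)) with h | h
  · have hS0 : S = 0 := by
      apply Finset.sum_eq_zero
      intro i hi
      have : μ.real (A i) ≤ μ.real U := measureReal_mono (hsub i hi) hUfin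
      exact le_antisymm (by rw [← h] at this; exact this) measureReal_nonneg
    rw [hS0, ← h]; simp
  · have := hpoly (S / μ.real U)
    have e : (S / μ.real U) ^ 2 * μ.real U - 2 * (S / μ.real U) * S + M
        = M - S ^ 2 / μ.real U := by
      field_simp
      ring
    rw [e] at this
    have h2 : S ^ 2 / μ.real U ≤ M := by linarith
    rw [div_le_iff₀ h] at h2
    linarith

/-- A measurable planar set with uniformly positive density in all small squares is full. -/
theorem full_of_density (U : Set (ℝ × ℝ)) (hU : MeasurableSet U) (c : ℝ) (hc : 0 < c)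
    (ρ₀ : ℝ) (hρ₀ : 0 < ρ₀)
    (h : ∀ (x : ℝ × ℝ) (ρ : ℝ), 0 < ρ → ρ ≤ ρ₀ →
      c * (volume : Measure (ℝ × ℝ)).real (closedBall x ρ) ≤
        (volume : Measure (ℝ × ℝ)).real (U ∩ closedBall x ρ)) :
    ∀ᵐ x ∂(volume : Measure (ℝ × ℝ)), x ∈ U := by
  have hdens := IsUnifLocDoublingMeasure.ae_tendsto_measure_inter_div
    (volume : Measure (ℝ × ℝ)) Uᶜ 1
  have hae : ∀ᵐ x ∂((volume : Measure (ℝ × ℝ)).restrict Uᶜ), False := by
    filter_upwards [hdens] with x hx
    have ht := hx (l := 𝓝[>] (0 : ℝ)) (fun _ => x) (fun δ => δ) tendsto_id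
      (by
        filter_upwards [self_mem_nhdsWithin] with δ hδ
        rw [mem_Ioi] at hδ
        simp [hδ.le])
    have hle : ∀ᶠ δ in 𝓝[>] (0 : ℝ),
        (volume : Measure (ℝ × ℝ)) (Uᶜ ∩ closedBall x δ) / volume (closedBall x δ)
          ≤ ENNReal.ofReal (1 - c) := by
      have hmem : Ioc (0 : ℝ) ρ₀ ∈ 𝓝[>] (0 : ℝ) := Ioc_mem_nhdsGT hρ₀
      filter_upwards [hmem] with δ hδ
      have hδ0 : 0 < δ := hδ.1
      have hB0 : (volume : Measure (ℝ × ℝ)) (closedBall x δ) ≠ 0 :=
        (measure_closedBall_pos volume x hδ0).ne'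
      have hBf : (volume : Measure (ℝ × ℝ)) (closedBall x δ) ≠ ∞ :=
        measure_closedBall_lt_top.ne
      have h1 := h x δ hδ0 hδ.2
      have hsum : (volume : Measure (ℝ × ℝ)).real (U ∩ closedBall x δ)
          + (volume : Measure (ℝ × ℝ)).real (Uᶜ ∩ closedBall x δ)
          = (volume : Measure (ℝ × ℝ)).real (closedBall x δ) := by
        have := measureReal_inter_add_sdiff (μ := (volume : Measure (ℝ × ℝ)))
          (s := closedBall x δ) hU (h := hBf)
        rw [← this, inter_comm, sdiff_eq, inter_comm Uᶜ]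
      have h2 : (volume : Measure (ℝ × ℝ)).real (Uᶜ ∩ closedBall x δ)
          ≤ (1 - c) * (volume : Measure (ℝ × ℝ)).real (closedBall x δ) := by linarith
      have hf1 : (volume : Measure (ℝ × ℝ)) (Uᶜ ∩ closedBall x δ) ≠ ∞ :=
        ne_top_of_le_ne_top hBf (measure_mono inter_subset_right)
      rw [ENNReal.div_le_iff hB0 hBf]
      rw [← ENNReal.ofReal_toReal hf1, ← ENNReal.ofReal_toReal hBf]
      have hVpos : 0 < (volume : Measure (ℝ × ℝ)).real (closedBall x δ) :=
        ENNReal.toReal_pos hB0 hBf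
      have hc1 : 0 ≤ 1 - c := by
        have h3 : 0 ≤ (volume : Measure (ℝ × ℝ)).real (Uᶜ ∩ closedBall x δ) := measureReal_nonneg
        by_contra hneg
        push Not at hneg
        nlinarith
      rw [← ENNReal.ofReal_mul hc1]
      exact ENNReal.ofReal_le_ofReal h2
    have hlim := le_of_tendsto ht hle
    have : ENNReal.ofReal (1 - c) < 1 := by
      rw [← ENNReal.ofReal_one]
      exact (ENNReal.ofReal_lt_ofReal_iff one_pos).mpr (by linarith)
    exact absurd hlim (not_le.mpr this)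
  rw [ae_iff] at hae
  simp only [not_false_eq_true, ofPred_true] at hae
  rw [Measure.restrict_apply_univ] at hae
  exact hae

theorem volume_real_ball (x : ℝ × ℝ) (r : ℝ) (hr : 0 ≤ r) :
    (volume : Measure (ℝ × ℝ)).real (ball x r) = (2 * r) ^ 2 := by
  have : ball x r = ball x.1 r ×ˢ ball x.2 r := by
    rw [ball_prod_same]
  rw [this, Measure.real, Measure.volume_eq_prod, Measure.prod_prod, Real.volume_ball,
    Real.volume_ball, ENNReal.toReal_mul, ENNReal.toReal_ofReal (by linarith)]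
  ring

theorem volume_real_closedBall (x : ℝ × ℝ) (r : ℝ) (hr : 0 ≤ r) :
    (volume : Measure (ℝ × ℝ)).real (closedBall x r) = (2 * r) ^ 2 := by
  have : closedBall x r = closedBall x.1 r ×ˢ closedBall x.2 r := by
    rw [closedBall_prod_same]
  rw [this, Measure.real, Measure.volume_eq_prod, Measure.prod_prod, Real.volume_closedBall,
    Real.volume_closedBall, ENNReal.toReal_mul, ENNReal.toReal_ofReal (by linarith)]
  ring

/-- measure of the intersection of two finite unions of balls -/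
theorem inter_measure_le {ι κ : Type*} [DecidableEq ι] [DecidableEq κ] (S : Finset ι)
    (T : Finset κ) (c : ι → ℝ × ℝ) (c' : κ → ℝ × ℝ) (ε ε' : ℝ) (hε : 0 < ε) (hε' : 0 < ε') :
    (volume : Measure (ℝ × ℝ)).real ((⋃ a ∈ S, ball (c a) ε) ∩ (⋃ b ∈ T, ball (c' b) ε')) ≤
      (((S ×ˢ T).filter (fun p => dist (c p.1) (c' p.2) < ε + ε')).card : ℝ)
        * (2 * min ε ε') ^ 2 := by
  classical
  set PP := (S ×ˢ T).filter (fun p => dist (c p.1) (c' p.2) < ε + ε') with hPP
  have hsub : ((⋃ a ∈ S, ball (c a) ε) ∩ (⋃ b ∈ T, ball (c' b) ε'))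
      ⊆ ⋃ p ∈ PP, (ball (c p.1) ε ∩ ball (c' p.2) ε') := by
    rintro x ⟨h1, h2⟩
    simp only [mem_iUnion, exists_prop] at h1 h2 ⊢
    obtain ⟨a, ha, hxa⟩ := h1
    obtain ⟨b, hb, hxb⟩ := h2
    refine ⟨(a, b), ?_, hxa, hxb⟩
    rw [hPP, Finset.mem_filter, Finset.mem_product]
    refine ⟨⟨ha, hb⟩, ?_⟩
    calc dist (c a) (c' b) ≤ dist (c a) x + dist x (c' b) := dist_triangle _ _ _
      _ < ε + ε' := by
        rw [mem_ball] at hxa hxb
        rw [dist_comm (c a)]
        linarith
  have hfin : (volume : Measure (ℝ × ℝ)) (⋃ p ∈ PP, (ball (c p.1) ε ∩ ball (c' p.2) ε')) ≠ ∞ := by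
    refine ne_of_lt (lt_of_le_of_lt (measure_biUnion_finset_le PP _) ?_)
    apply ENNReal.sum_lt_top.mpr
    intro p _
    exact lt_of_le_of_lt (measure_mono inter_subset_left) measure_ball_lt_top
  calc (volume : Measure (ℝ × ℝ)).real ((⋃ a ∈ S, ball (c a) ε) ∩ (⋃ b ∈ T, ball (c' b) ε'))
      ≤ (volume : Measure (ℝ × ℝ)).real (⋃ p ∈ PP, (ball (c p.1) ε ∩ ball (c' p.2) ε')) :=
        measureReal_mono hsub hfin
    _ ≤ ∑ p ∈ PP, (volume : Measure (ℝ × ℝ)).real (ball (c p.1) ε ∩ ball (c' p.2) ε') :=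
        measureReal_biUnion_finset_le _ _
    _ ≤ ∑ _p ∈ PP, (2 * min ε ε') ^ 2 := by
        apply Finset.sum_le_sum
        intro p _
        rcases le_total ε ε' with h | h
        · rw [min_eq_left h, ← volume_real_ball (c p.1) ε hε.le]
          exact measureReal_mono inter_subset_left measure_ball_lt_top.ne
        · rw [min_eq_right h, ← volume_real_ball (c' p.2) ε' hε'.le]
          exact measureReal_mono inter_subset_right measure_ball_lt_top.ne
    _ = _ := by rw [Finset.sum_const, nsmul_eq_mul]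

theorem union_measure_eq {ι : Type*} [DecidableEq ι] (S : Finset ι)
    (c : ι → ℝ × ℝ) (ε : ℝ) (hε : 0 < ε)
    (hdisj : ∀ a ∈ S, ∀ b ∈ S, a ≠ b → 2 * ε ≤ dist (c a) (c b)) :
    (volume : Measure (ℝ × ℝ)).real (⋃ a ∈ S, ball (c a) ε) = (S.card : ℝ) * (2 * ε) ^ 2 := by
  rw [measureReal_biUnion_finset]
  · rw [Finset.sum_congr rfl (fun a _ => volume_real_ball (c a) ε hε.le), Finset.sum_const,
      nsmul_eq_mul]
  · intro a ha b hb hab
    exact ball_disjoint_ball (by linarith [hdisj a ha b hb hab])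
  · intro a _
    exact measurableSet_ball

end Pool.Agent.H963R5
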