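import Mathlib
import Pool.Agent.H963R5.Count

set_option autoImplicit false

namespace Pool.Agent.H963R5

open Finset

/-- integers `a` with `q x₀ ≤ a + y ≤ q (x₀ + ℓ)` -/
noncomputable def JJ (q : ℕ) (y x₀ ℓ : ℝ) : Finset ℤ :=
  Finset.Icc ⌈(q : ℝ) * x₀ - y⌉ ⌊(q : ℝ) * (x₀ + ℓ) - y⌋

theorem mem_JJ {q : ℕ} {y x₀ ℓ : ℝ} {a : ℤ} :
    a ∈ JJ q y x₀ ℓ ↔ (q : ℝ) * x₀ ≤ a + y ∧ (a : ℝ) + y ≤ q * (x₀ + ℓ) := by
  unfold JJ
  rw [Finset.mem_Icc, Int.ceil_le, Int.le_floor]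
  constructor
  · rintro ⟨h1, h2⟩; constructor <;> linarith
  · rintro ⟨h1, h2⟩; constructor <;> linarith

theorem card_JJ_ge (q : ℕ) (y x₀ ℓ : ℝ) : (q : ℝ) * ℓ - 1 ≤ ((JJ q y x₀ ℓ).card : ℝ) := by
  unfold JJ
  rw [Int.card_Icc]
  have h1 : (⌈(q : ℝ) * x₀ - y⌉ : ℝ) < (q : ℝ) * x₀ - y + 1 := Int.ceil_lt_add_one _
  have h2 : (q : ℝ) * (x₀ + ℓ) - y < ⌊(q : ℝ) * (x₀ + ℓ) - y⌋ + 1 := Int.lt_floor_add_one _
  have h3 : ((⌊(q : ℝ) * (x₀ + ℓ) - y⌋ + 1 - ⌈(q : ℝ) * x₀ - y⌉ : ℤ) : ℝ)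
      ≤ (((⌊(q : ℝ) * (x₀ + ℓ) - y⌋ + 1 - ⌈(q : ℝ) * x₀ - y⌉).toNat : ℕ) : ℝ) := by
    rw [← Int.cast_natCast]
    exact_mod_cast Int.self_le_toNat _
  push_cast at h3
  linarith

theorem card_JJ_le (q : ℕ) (y x₀ ℓ : ℝ) (hℓ : 0 ≤ ℓ) : ((JJ q y x₀ ℓ).card : ℝ) ≤ 1 + q * ℓ := by
  have h := sep_card (JJ q y x₀ ℓ) (fun a : ℤ => (a : ℝ)) 1 (q * x₀ - y) (q * (x₀ + ℓ) - y)
    one_pos (by nlinarith [Nat.cast_nonneg (α := ℝ) q])
    (fun a ha => by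
      rw [mem_JJ] at ha
      exact ⟨by linarith [ha.1], by linarith [ha.2]⟩)
    (fun a _ b _ hne => by
      have : (1 : ℤ) ≤ |a - b| := Int.one_le_abs (sub_ne_zero.mpr hne)
      exact_mod_cast this)
  have e : (q * (x₀ + ℓ) - y - (q * x₀ - y)) / (1 : ℝ) = q * ℓ := by ring
  rw [e] at h
  exact h

theorem card_JJ_class (q : ℕ) (y x₀ ℓ : ℝ) (hℓ : 0 ≤ ℓ) (u : ℕ) (hu : 0 < u) (n₀ : ℕ)
    (hc : Nat.Coprime n₀ u) (b : ℤ) :
    (((JJ q y x₀ ℓ).filter (fun a => (u : ℤ) ∣ n₀ * a + b)).card : ℝ) ≤ 1 + q * ℓ / u := by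
  have h := sep_card ((JJ q y x₀ ℓ).filter (fun a => (u : ℤ) ∣ n₀ * a + b))
    (fun a : ℤ => (a : ℝ)) u (q * x₀ - y) (q * (x₀ + ℓ) - y)
    (by exact_mod_cast hu) (by nlinarith [Nat.cast_nonneg (α := ℝ) q])
    (fun a ha => by
      rw [Finset.mem_filter, mem_JJ] at ha
      exact ⟨by linarith [ha.1.1], by linarith [ha.1.2]⟩)
    (fun a ha a' ha' hne => by
      rw [Finset.mem_filter] at ha ha'
      have h1 : (u : ℤ) ∣ n₀ * (a - a') := by
        have := dvd_sub ha.2 ha'.2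
        have e : (n₀ : ℤ) * a + b - (n₀ * a' + b) = n₀ * (a - a') := by ring
        rwa [e] at this
      have h2 : (u : ℤ) ∣ (a - a') := by
        apply IsCoprime.dvd_of_dvd_mul_left _ h1
        exact (Nat.isCoprime_iff_coprime.mpr hc).symm
      have h3 : (u : ℤ) ≤ |a - a'| :=
        Int.le_of_dvd (abs_pos.mpr (sub_ne_zero.mpr hne)) ((dvd_abs _ _).mpr h2)
      exact_mod_cast h3)
  have e : (q * (x₀ + ℓ) - y - (q * x₀ - y)) / (u : ℝ) = q * ℓ / u := by ring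
  rw [e] at h
  exact h

theorem card_divisors_le_sqrt (q : ℕ) (hq : 0 < q) : (q.divisors).card ≤ 2 * Nat.sqrt q := by
  classical
  have hsub : q.divisors ⊆ Finset.Icc 1 (Nat.sqrt q) ∪
      (Finset.Icc 1 (Nat.sqrt q)).image (fun d => q / d) := by
    intro d hd
    rw [Nat.mem_divisors] at hd
    have hd0 : 0 < d := Nat.pos_of_dvd_of_pos hd.1 hq
    rw [Finset.mem_union, Finset.mem_image]
    by_cases h : d ≤ Nat.sqrt q
    · left; rw [Finset.mem_Icc]; exact ⟨hd0, h⟩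
    · right
      refine ⟨q / d, ?_, Nat.div_div_self hd.1 hq.ne'⟩
      rw [Finset.mem_Icc]
      refine ⟨Nat.div_pos (Nat.le_of_dvd hq hd.1) hd0, ?_⟩
      push Not at h
      by_contra hcon
      push Not at hcon
      have h1 : (Nat.sqrt q + 1) * (Nat.sqrt q + 1) ≤ d * (q / d) := Nat.mul_le_mul h hcon
      rw [Nat.mul_div_cancel' hd.1] at h1
      have h2 := Nat.lt_succ_sqrt q
      simp only [Nat.succ_eq_add_one] at h2
      omega
  calc (q.divisors).card ≤ _ := Finset.card_le_card hsub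
    _ ≤ (Finset.Icc 1 (Nat.sqrt q)).card +
        ((Finset.Icc 1 (Nat.sqrt q)).image (fun d => q / d)).card := Finset.card_union_le _ _
    _ ≤ (Finset.Icc 1 (Nat.sqrt q)).card + (Finset.Icc 1 (Nat.sqrt q)).card :=
        Nat.add_le_add_left Finset.card_image_le _
    _ = 2 * Nat.sqrt q := by rw [Nat.card_Icc]; omega

theorem sum_inv_sq_from_two (n : ℕ) : ∑ u ∈ Finset.Icc 2 n, 1 / (u : ℝ) ^ 2 ≤ 3 / 4 := by
  rcases le_or_gt 2 n with h | h
  · have e : Finset.Icc 2 n = insert 2 (Finset.Ioc 2 n) := by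
      ext x; simp only [Finset.mem_Icc, Finset.mem_insert, Finset.mem_Ioc]; omega
    rw [e, Finset.sum_insert (by simp)]
    have h1 := sum_Ioc_inv_sq_le_sub (α := ℝ) (k := 2) (n := n) (by norm_num) h
    have h2 : ∑ u ∈ Finset.Ioc 2 n, 1 / (u : ℝ) ^ 2 ≤ 1 / 2 := by
      simp only [one_div]
      have : (0 : ℝ) ≤ (n : ℝ)⁻¹ := by positivity
      push_cast at h1
      linarith
    push_cast
    linarith
  · rw [Finset.Icc_eq_empty (by omega)]; norm_num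

theorem exists_S (y : ℝ × ℝ) (A : ℝ) (hA : 0 < A) (q : ℕ) (hq : 0 < q)
    (x₀ : ℝ × ℝ) (ℓ : ℝ) (hℓ : 0 < ℓ) (hℓ1 : ℓ ≤ 1) (hbig : 48 ≤ Real.sqrt q * ℓ) :
    ∃ (S : Finset (ℤ × ℤ)) (Y : ℕ → Finset ℕ),
      (∀ a ∈ S, a.1 ∈ JJ q y.1 x₀.1 ℓ ∧ a.2 ∈ JJ q y.2 x₀.2 ℓ) ∧
      (q * ℓ) ^ 2 / 8 ≤ (S.card : ℝ) ∧
      (∀ u, 2 ≤ u → u ∣ q → 8 * A * u ≤ 1 →
        ((Y u).card : ℝ) ≤ 16 * u * Real.sqrt (u * A / 2)) ∧
      (∀ u, 2 ≤ u → u ∣ q → 8 * A * u ≤ 1 → ∀ a ∈ S, ∀ n : ℕ, 0 < n → n < u →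
        Nat.Coprime n u → ∀ N : ℤ × ℤ, |(n : ℝ) * y.1 - N.1| < Real.sqrt (u * A / 2) →
        |(n : ℝ) * y.2 - N.2| < Real.sqrt (u * A / 2) → (u : ℤ) ∣ n * a.1 + N.1 →
        (u : ℤ) ∣ n * a.2 + N.2 → n ∈ Y u) := by
  classical
  -- near-rational data
  have hdata : ∀ u : ℕ, ∃ (n₀ : ℕ) (N₀ : ℤ × ℤ), (0 < u → 8 * A * u ≤ 1 → 1 ≤ n₀ ∧
      (∀ (n : ℕ) (N : ℤ × ℤ), (n₀ : ℤ) * N.1 = n * N₀.1 → (n₀ : ℤ) * N.2 = n * N₀.2 → n₀ ∣ n) ∧
      ∀ S : Finset ℕ, (∀ n ∈ S, 0 < n ∧ (n : ℝ) < u ∧ ∃ N : ℤ × ℤ,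
          |(n : ℝ) * y.1 - N.1| < Real.sqrt (u * A / 2) ∧
          |(n : ℝ) * y.2 - N.2| < Real.sqrt (u * A / 2) ∧
          ¬ ((n₀ : ℤ) * N.1 = n * N₀.1 ∧ (n₀ : ℤ) * N.2 = n * N₀.2)) →
        (S.card : ℝ) ≤ 16 * u * Real.sqrt (u * A / 2)) := by
    intro u
    by_cases hu : 0 < u ∧ 8 * A * u ≤ 1
    · have hur : (0 : ℝ) < u := by exact_mod_cast hu.1
      have h1 : 0 < Real.sqrt (u * A / 2) := Real.sqrt_pos.mpr (by positivity)
      have h2 : Real.sqrt (u * A / 2) ≤ 1 / 4 := by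
        have : u * A / 2 ≤ (1 / 4 : ℝ) ^ 2 := by
          have := hu.2
          nlinarith
        calc Real.sqrt (u * A / 2) ≤ Real.sqrt ((1 / 4 : ℝ) ^ 2) := Real.sqrt_le_sqrt this
          _ = 1 / 4 := Real.sqrt_sq (by norm_num)
      obtain ⟨n₀, N₀, h⟩ := near_rational y (Real.sqrt (u * A / 2)) h1 h2 u hur.le
      exact ⟨n₀, N₀, fun _ _ => h⟩
    · exact ⟨1, (0, 0), fun h1 h2 => absurd ⟨h1, h2⟩ hu⟩
  choose n₀ N₀ hN using hdata
  let bad : ℕ → ℤ × ℤ → Prop := fun u a =>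
    Nat.Coprime (n₀ u) u ∧ (u : ℤ) ∣ n₀ u * a.1 + (N₀ u).1 ∧ (u : ℤ) ∣ n₀ u * a.2 + (N₀ u).2
  let D : Finset ℕ := q.divisors.filter (fun u => 2 ≤ u)
  let B : Finset (ℤ × ℤ) := JJ q y.1 x₀.1 ℓ ×ˢ JJ q y.2 x₀.2 ℓ
  let S : Finset (ℤ × ℤ) := B.filter (fun a => ∀ u ∈ D, ¬ bad u a)
  let Y : ℕ → Finset ℕ := fun u => (Finset.range u).filter (fun n => 0 < n ∧ ∃ N : ℤ × ℤ,
          |(n : ℝ) * y.1 - N.1| < Real.sqrt (u * A / 2) ∧
          |(n : ℝ) * y.2 - N.2| < Real.sqrt (u * A / 2) ∧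
          ¬ ((n₀ u : ℤ) * N.1 = n * (N₀ u).1 ∧ (n₀ u : ℤ) * N.2 = n * (N₀ u).2))
  refine ⟨S, Y, ?_, ?_, ?_, ?_⟩
  · intro a ha
    simp only [S, B, Finset.mem_filter, Finset.mem_product] at ha
    exact ha.1
  · -- cardinality
    have hq1 : (1 : ℝ) ≤ q := by exact_mod_cast hq
    have hX : 48 * Real.sqrt q ≤ q * ℓ := by
      have : (q : ℝ) = Real.sqrt q * Real.sqrt q := (Real.mul_self_sqrt (by linarith)).symm
      calc 48 * Real.sqrt q ≤ (Real.sqrt q * ℓ) * Real.sqrt q := by gcongr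
        _ = q * ℓ := by rw [mul_right_comm, ← this]
    have hsq1 : 1 ≤ Real.sqrt q := by rw [Real.one_le_sqrt]; exact hq1
    have hX48 : 48 ≤ (q : ℝ) * ℓ := by linarith
    have hBcard : ((q : ℝ) * ℓ - 1) ^ 2 ≤ (B.card : ℝ) := by
      simp only [B]
      rw [Finset.card_product]
      push_cast
      rw [sq]
      exact mul_le_mul (card_JJ_ge q _ _ _) (card_JJ_ge q _ _ _) (by linarith) (by positivity)
    have hsub : B \ S ⊆ D.biUnion (fun u => B.filter (fun a => bad u a)) := by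
      intro a ha
      rw [Finset.mem_sdiff] at ha
      simp only [S, Finset.mem_filter, not_and, not_forall, not_not] at ha
      obtain ⟨u, hu, hb⟩ := ha.2 ha.1
      rw [Finset.mem_biUnion]
      exact ⟨u, hu, Finset.mem_filter.mpr ⟨ha.1, hb⟩⟩
    have hcu : ∀ u ∈ D, ((B.filter (fun a => bad u a)).card : ℝ) ≤ (1 + q * ℓ / u) ^ 2 := by
      intro u hu
      simp only [D, Finset.mem_filter, Nat.mem_divisors] at hu
      have hu0 : 0 < u := by omega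
      have hur : (0 : ℝ) < u := by exact_mod_cast hu0
      by_cases hc : Nat.Coprime (n₀ u) u
      · have hs : B.filter (fun a => bad u a) ⊆
            ((JJ q y.1 x₀.1 ℓ).filter (fun a => (u : ℤ) ∣ n₀ u * a + (N₀ u).1)) ×ˢ
            ((JJ q y.2 x₀.2 ℓ).filter (fun a => (u : ℤ) ∣ n₀ u * a + (N₀ u).2)) := by
          intro a ha
          simp only [B, bad, Finset.mem_filter, Finset.mem_product] at ha ⊢
          exact ⟨⟨ha.1.1, ha.2.2.1⟩, ⟨ha.1.2, ha.2.2.2⟩⟩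
        have h1 := Finset.card_le_card hs
        rw [Finset.card_product] at h1
        have h2 : ((B.filter (fun a => bad u a)).card : ℝ) ≤
            (((JJ q y.1 x₀.1 ℓ).filter (fun a => (u : ℤ) ∣ n₀ u * a + (N₀ u).1)).card : ℝ) *
            (((JJ q y.2 x₀.2 ℓ).filter (fun a => (u : ℤ) ∣ n₀ u * a + (N₀ u).2)).card : ℝ) := by
          exact_mod_cast h1
        refine h2.trans ?_
        rw [sq]
        exact mul_le_mul (card_JJ_class q _ _ ℓ hℓ.le u hu0 _ hc _)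
          (card_JJ_class q _ _ ℓ hℓ.le u hu0 _ hc _) (by positivity) (by positivity)
      · have : B.filter (fun a => bad u a) = ∅ := by
          apply Finset.filter_eq_empty_iff.mpr
          intro a _ hb
          exact hc hb.1
        rw [this]; simp; positivity
    have hD1 : ((B \ S).card : ℝ) ≤ ∑ u ∈ D, (1 + q * ℓ / u) ^ 2 := by
      calc ((B \ S).card : ℝ) ≤ ((D.biUnion (fun u => B.filter (fun a => bad u a))).card : ℝ) := by
            exact_mod_cast Finset.card_le_card hsub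
        _ ≤ ((∑ u ∈ D, (B.filter (fun a => bad u a)).card : ℕ) : ℝ) := by
            exact_mod_cast Finset.card_biUnion_le
        _ ≤ _ := by
            push_cast
            exact Finset.sum_le_sum hcu
    have hterm : ∀ u ∈ D, (1 + (q : ℝ) * ℓ / u) ^ 2 ≤ (1 + q * ℓ) + (q * ℓ) ^ 2 * (1 / (u : ℝ) ^ 2) := by
      intro u hu
      simp only [D, Finset.mem_filter, Nat.mem_divisors] at hu
      have hur : (2 : ℝ) ≤ u := by exact_mod_cast hu.2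
      have h1 : (q : ℝ) * ℓ / u ≤ q * ℓ / 2 := by gcongr
      have e : (1 + (q : ℝ) * ℓ / u) ^ 2 = 1 + 2 * (q * ℓ / u) + (q * ℓ) ^ 2 * (1 / (u : ℝ) ^ 2) := by
        field_simp
        ring
      rw [e]
      linarith
    have hDcard : (D.card : ℝ) ≤ 2 * Real.sqrt q := by
      have h1 : D.card ≤ 2 * Nat.sqrt q :=
        (Finset.card_le_card (Finset.filter_subset _ _)).trans (card_divisors_le_sqrt q hq)
      have h2 : (D.card : ℝ) ≤ 2 * (Nat.sqrt q : ℝ) := by exact_mod_cast h1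
      have h3 : (Nat.sqrt q : ℝ) ≤ Real.sqrt q := Real.nat_sqrt_le_real_sqrt
      linarith
    have hD2 : ∑ u ∈ D, (1 + (q : ℝ) * ℓ / u) ^ 2
        ≤ 2 * Real.sqrt q * (1 + q * ℓ) + (q * ℓ) ^ 2 * (3 / 4) := by
      calc ∑ u ∈ D, (1 + (q : ℝ) * ℓ / u) ^ 2
          ≤ ∑ u ∈ D, ((1 + q * ℓ) + (q * ℓ) ^ 2 * (1 / (u : ℝ) ^ 2)) := Finset.sum_le_sum hterm
        _ = D.card * (1 + q * ℓ) + (q * ℓ) ^ 2 * ∑ u ∈ D, (1 / (u : ℝ) ^ 2) := by
            rw [Finset.sum_add_distrib, Finset.sum_const, nsmul_eq_mul, ← Finset.mul_sum]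
        _ ≤ 2 * Real.sqrt q * (1 + q * ℓ) + (q * ℓ) ^ 2 * (3 / 4) := by
            gcongr
            calc ∑ u ∈ D, (1 / (u : ℝ) ^ 2) ≤ ∑ u ∈ Finset.Icc 2 q, (1 / (u : ℝ) ^ 2) := by
                  apply Finset.sum_le_sum_of_subset_of_nonneg
                  · intro u hu
                    simp only [D, Finset.mem_filter, Nat.mem_divisors] at hu
                    rw [Finset.mem_Icc]
                    exact ⟨hu.2, Nat.le_of_dvd hq hu.1.1⟩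
                  · intro u _ _; positivity
              _ ≤ 3 / 4 := sum_inv_sq_from_two q
    have hcardS : (B.card : ℝ) ≤ (S.card : ℝ) + ((B \ S).card : ℝ) := by
      have h1 : B ⊆ S ∪ (B \ S) := by
        intro a ha
        by_cases h : a ∈ S
        · exact Finset.mem_union_left _ h
        · exact Finset.mem_union_right _ (Finset.mem_sdiff.mpr ⟨ha, h⟩)
      have h2 := (Finset.card_le_card h1).trans (Finset.card_union_le _ _)
      exact_mod_cast h2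
    set X := (q : ℝ) * ℓ with hXdef
    set s := Real.sqrt (q : ℝ) with hs
    -- (X-1)^2 - 2 s (1+X) - 3/4 X^2 ≥ X^2/8
    have hfin : X ^ 2 / 8 ≤ (X - 1) ^ 2 - 2 * s * (1 + X) - X ^ 2 * (3 / 4) := by
      nlinarith
    linarith
  · intro u hu2 hud huA
    have h := (hN u (by omega) huA).2.2 (Y u) (by
      intro n hn
      simp only [Y, Finset.mem_filter, Finset.mem_range] at hn
      exact ⟨hn.2.1, by exact_mod_cast hn.1, hn.2.2⟩)
    exact h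
  · intro u hu2 hud huA a ha n hn0 hnu hnc N hN1 hN2 hd1 hd2
    simp only [Y, Finset.mem_filter, Finset.mem_range]
    refine ⟨hnu, hn0, N, hN1, hN2, ?_⟩
    rintro ⟨e1, e2⟩
    obtain ⟨hn₀1, hprim, _⟩ := hN u (by omega) huA
    have hdvd : n₀ u ∣ n := hprim n N e1 e2
    have hcop : Nat.Coprime (n₀ u) u := Nat.Coprime.coprime_dvd_left hdvd hnc
    simp only [S, Finset.mem_filter] at ha
    have hnot := ha.2 u (by
      simp only [D, Finset.mem_filter, Nat.mem_divisors]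
      exact ⟨⟨hud, hq.ne'⟩, hu2⟩)
    apply hnot
    have hic : IsCoprime (u : ℤ) (n : ℤ) := (Nat.isCoprime_iff_coprime.mpr hnc).symm
    refine ⟨hcop, ?_, ?_⟩
    · apply hic.dvd_of_dvd_mul_left
      have : (n : ℤ) * (n₀ u * a.1 + (N₀ u).1) = n₀ u * (n * a.1 + N.1) := by
        linear_combination -e1
      rw [this]
      exact Dvd.dvd.mul_left hd1 _
    · apply hic.dvd_of_dvd_mul_left
      have : (n : ℤ) * (n₀ u * a.2 + (N₀ u).2) = n₀ u * (n * a.2 + N.2) := by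
        linear_combination -e2
      rw [this]
      exact Dvd.dvd.mul_left hd2 _

end Pool.Agent.H963R5
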