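import Mathlib
import Pool.Agent.H963R5.Count

set_option autoImplicit false

namespace Pool.Agent.H963R5

open Finset

/-- membership condition for the lattice points in a thin strip -/
def InStrip (q r : ℕ) (Δ ℓ y x₀ : ℝ) (P : Finset (ℤ × ℤ)) : Prop :=
  ∀ p ∈ P, (q : ℝ) * x₀ ≤ p.1 + y ∧ (p.1 : ℝ) + y ≤ q * (x₀ + ℓ) ∧
    |(r : ℝ) * (p.1 + y) - q * (p.2 + y)| < 2 * (Δ * q * r)

theorem strip_count (q r : ℕ) (hq : 0 < q) (hr : 0 < r) (Δ ℓ : ℝ) (hΔ : 0 < Δ)
    (h4 : 4 * Δ * r ≤ 1) (hℓ : 0 < ℓ) (hℓ1 : ℓ ≤ 1) :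
    (∀ (y x₀ : ℝ) (P : Finset (ℤ × ℤ)), InStrip q r Δ ℓ y x₀ P →
        (P.card : ℝ) ≤ 2 + 16 * ℓ * (Δ * q * r))
    ∨ (∃ s t H : ℤ, 1 ≤ s ∧ (r : ℤ) * s - q * t = H ∧ H ≠ 0 ∧ |(H : ℝ)| * ℓ < 1 ∧
        8 * Δ * r * s < 1 ∧
        ∀ (y x₀ : ℝ) (P : Finset (ℤ × ℤ)), InStrip q r Δ ℓ y x₀ P →
          (P.card : ℝ) ≤ 2 + 16 * (Δ * q * r))
    ∨ (8 * Δ * r * ((q / Nat.gcd q r : ℕ) : ℝ) < 1 ∧
        ∀ (y x₀ : ℝ) (P : Finset (ℤ × ℤ)), InStrip q r Δ ℓ y x₀ P →
          (P.card : ℝ) ≤ 1 + ℓ * (Nat.gcd q r : ℝ)) := by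
  classical
  have hqr : (0 : ℝ) < q := by exact_mod_cast hq
  have hrr : (0 : ℝ) < r := by exact_mod_cast hr
  have hD : 0 < Δ * q * r := by positivity
  let Pr : ℕ → Prop := fun s => 1 ≤ s ∧ ∃ t : ℤ, |(r : ℝ) * s - q * t| < 4 * (Δ * q * r)
  have hex : ∃ s, Pr s := ⟨q, hq, r, by
    have : (r : ℝ) * q - q * ((r : ℤ) : ℝ) = 0 := by push_cast; ring
    rw [this, abs_zero]; positivity⟩
  let s₀ := Nat.find hex
  have hs₀ : Pr s₀ := Nat.find_spec hex
  have hmin : ∀ m, Pr m → s₀ ≤ m := fun m hm => Nat.find_min' hex hm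
  obtain ⟨h1s, t₀, ht₀⟩ := hs₀
  have hs₀r : (1 : ℝ) ≤ s₀ := by exact_mod_cast h1s
  -- difference control
  have hdiff : ∀ (y x₀ : ℝ) (P : Finset (ℤ × ℤ)), InStrip q r Δ ℓ y x₀ P →
      ∀ p ∈ P, ∀ p' ∈ P, |(r : ℝ) * ((p.1 : ℝ) - p'.1) - q * ((p.2 : ℝ) - p'.2)|
        < 4 * (Δ * q * r) := by
    intro y x₀ P hP p hp p' hp'
    have h1 := (hP p hp).2.2
    have h2 := (hP p' hp').2.2
    rw [abs_lt] at *
    constructor <;> linarith
  have hsep : ∀ (y x₀ : ℝ) (P : Finset (ℤ × ℤ)), InStrip q r Δ ℓ y x₀ P →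
      ∀ p ∈ P, ∀ p' ∈ P, p ≠ p' → (s₀ : ℝ) ≤ |(p.1 : ℝ) - p'.1| := by
    have aux : ∀ (y x₀ : ℝ) (P : Finset (ℤ × ℤ)), InStrip q r Δ ℓ y x₀ P →
        ∀ p ∈ P, ∀ p' ∈ P, p'.1 < p.1 → (s₀ : ℝ) ≤ |(p.1 : ℝ) - p'.1| := by
      intro y x₀ P hP p hp p' hp' hlt
      have h1 := hdiff y x₀ P hP p hp p' hp'
      have h2 : Pr (p.1 - p'.1).toNat := by
        refine ⟨by omega, p.2 - p'.2, ?_⟩
        have e : (((p.1 - p'.1).toNat : ℕ) : ℝ) = (p.1 : ℝ) - p'.1 := by
          have : (((p.1 - p'.1).toNat : ℕ) : ℤ) = p.1 - p'.1 := Int.toNat_of_nonneg (by omega)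
          rw [← Int.cast_natCast, this]; push_cast; ring
        rw [e]; push_cast; exact h1
      have h3 := hmin _ h2
      have e : (((p.1 - p'.1).toNat : ℕ) : ℝ) = (p.1 : ℝ) - p'.1 := by
        have : (((p.1 - p'.1).toNat : ℕ) : ℤ) = p.1 - p'.1 := Int.toNat_of_nonneg (by omega)
        rw [← Int.cast_natCast, this]; push_cast; ring
      have h4 : (s₀ : ℝ) ≤ (((p.1 - p'.1).toNat : ℕ) : ℝ) := by exact_mod_cast h3
      rw [e] at h4
      exact h4.trans (le_abs_self _)
    intro y x₀ P hP p hp p' hp' hne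
    rcases lt_trichotomy p.1 p'.1 with h | h | h
    · rw [abs_sub_comm]; exact aux y x₀ P hP p' hp' p hp h
    · exfalso
      apply hne
      refine Prod.ext h ?_
      have h1 := hdiff y x₀ P hP p hp p' hp'
      rw [h, sub_self, mul_zero, zero_sub, abs_neg, abs_mul, Nat.abs_cast] at h1
      have h2 : |(p.2 : ℝ) - p'.2| < 1 := by
        have : (q : ℝ) * |(p.2 : ℝ) - p'.2| < q * 1 := by
          calc (q : ℝ) * |(p.2 : ℝ) - p'.2| < 4 * (Δ * q * r) := h1
            _ = q * (4 * Δ * r) := by ring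
            _ ≤ q * 1 := by gcongr
        exact lt_of_mul_lt_mul_left this hqr.le
      have h3 : |p.2 - p'.2| < 1 := by exact_mod_cast h2
      have := Int.abs_lt_one_iff.mp h3
      omega
    · exact aux y x₀ P hP p hp p' hp' h
  have hbasic : ∀ (y x₀ : ℝ) (P : Finset (ℤ × ℤ)), InStrip q r Δ ℓ y x₀ P →
      (P.card : ℝ) ≤ 1 + q * ℓ / s₀ := by
    intro y x₀ P hP
    have h := sep_card P (fun p => (p.1 : ℝ)) s₀ (q * x₀ - y) (q * (x₀ + ℓ) - y)
      (by linarith) (by nlinarith)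
      (fun p hp => ⟨by linarith [(hP p hp).1], by linarith [(hP p hp).2.1]⟩)
      (hsep y x₀ P hP)
    have e : (q * (x₀ + ℓ) - y - (q * x₀ - y)) / (s₀ : ℝ) = q * ℓ / s₀ := by ring
    rw [e] at h
    exact h
  by_cases hcase1 : 1 ≤ 8 * Δ * r * s₀
  · left
    intro y x₀ P hP
    have h := hbasic y x₀ P hP
    have h2 : (q : ℝ) * ℓ / s₀ ≤ 8 * ℓ * (Δ * q * r) := by
      rw [div_le_iff₀ (by linarith)]
      have : (q : ℝ) * ℓ * 1 ≤ q * ℓ * (8 * Δ * r * s₀) := by gcongr
      nlinarith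
    have h3 : 0 ≤ ℓ * (Δ * q * r) := by positivity
    linarith
  push Not at hcase1
  -- primitivity of (s₀, t₀)
  have hprim : IsCoprime (s₀ : ℤ) t₀ := by
    rw [Int.isCoprime_iff_gcd_eq_one]
    set g := Int.gcd (s₀ : ℤ) t₀ with hg
    have hgpos : 0 < g := Int.gcd_pos_of_ne_zero_left _ (by exact_mod_cast (by omega : s₀ ≠ 0))
    obtain ⟨a, ha⟩ : (g : ℤ) ∣ (s₀ : ℤ) := Int.gcd_dvd_left _ _
    obtain ⟨b, hb⟩ : (g : ℤ) ∣ t₀ := Int.gcd_dvd_right _ _
    have ha1 : 1 ≤ a := by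
      by_contra h
      push Not at h
      have : (s₀ : ℤ) ≤ 0 := by
        rw [ha]
        exact mul_nonpos_of_nonneg_of_nonpos (by positivity) (by omega)
      omega
    have hgr : (1 : ℝ) ≤ g := by exact_mod_cast hgpos
    have hP : Pr a.toNat := by
      refine ⟨by omega, b, ?_⟩
      have e0 : ((a.toNat : ℕ) : ℝ) = (a : ℝ) := by
        rw [← Int.cast_natCast, Int.toNat_of_nonneg (by omega)]
      have e : (r : ℝ) * s₀ - q * t₀ = g * ((r : ℝ) * a - q * b) := by
        have e1 : (s₀ : ℝ) = g * a := by exact_mod_cast ha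
        have e2 : (t₀ : ℝ) = g * b := by exact_mod_cast hb
        rw [e1, e2]; ring
      rw [e, abs_mul, Nat.abs_cast] at ht₀
      rw [e0]
      have := abs_nonneg ((r : ℝ) * a - q * b)
      nlinarith
    have h1 := hmin _ hP
    have h2 : (s₀ : ℤ) ≤ a := by omega
    by_contra hne
    have h3 : 2 ≤ g := by omega
    have h4 : (s₀ : ℤ) = g * a := ha
    have h5 : (2 : ℤ) * a ≤ g * a := by
      apply mul_le_mul_of_nonneg_right _ (by omega)
      exact_mod_cast h3
    omega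
  set H : ℤ := (r : ℤ) * s₀ - q * t₀ with hH
  have hHr : (H : ℝ) = (r : ℝ) * s₀ - q * t₀ := by rw [hH]; push_cast; ring
  by_cases hH0 : H = 0
  · -- gcd case
    right
    right
    have hs₀eq : s₀ = q / Nat.gcd q r := by
      have hgpos : 0 < Nat.gcd q r := Nat.gcd_pos_of_pos_left _ hq
      apply le_antisymm
      · apply hmin
        refine ⟨Nat.div_pos (Nat.le_of_dvd hq (Nat.gcd_dvd_left _ _)) hgpos,
          ((r / Nat.gcd q r : ℕ) : ℤ), ?_⟩
        have e1 : ((q / Nat.gcd q r : ℕ) : ℝ) = q / (Nat.gcd q r : ℝ) :=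
          Nat.cast_div (Nat.gcd_dvd_left _ _) (by exact_mod_cast hgpos.ne')
        have e2 : ((r / Nat.gcd q r : ℕ) : ℝ) = r / (Nat.gcd q r : ℝ) :=
          Nat.cast_div (Nat.gcd_dvd_right _ _) (by exact_mod_cast hgpos.ne')
        have e : (r : ℝ) * ((q / Nat.gcd q r : ℕ) : ℝ) - q * (((r / Nat.gcd q r : ℕ) : ℤ) : ℝ) = 0 := by
          rw [Int.cast_natCast, e1, e2]; ring
        rw [e, abs_zero]; positivity
      · -- q / gcd divides s₀
        have h1 : (r : ℤ) * s₀ = q * t₀ := by linarith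
        have h2 : (q : ℤ) ∣ r * s₀ := ⟨t₀, h1⟩
        have h3 : q ∣ r * s₀ := by exact_mod_cast h2
        have h4 : q / Nat.gcd q r ∣ s₀ := by
          have hc : Nat.Coprime (q / Nat.gcd q r) (r / Nat.gcd q r) :=
            Nat.coprime_div_gcd_div_gcd hgpos
          have h5 : q / Nat.gcd q r ∣ (r / Nat.gcd q r) * s₀ := by
            have e1 : q = Nat.gcd q r * (q / Nat.gcd q r) :=
              (Nat.mul_div_cancel' (Nat.gcd_dvd_left _ _)).symm
            have e2 : r = Nat.gcd q r * (r / Nat.gcd q r) :=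
              (Nat.mul_div_cancel' (Nat.gcd_dvd_right _ _)).symm
            have h6 : Nat.gcd q r * (q / Nat.gcd q r) ∣ Nat.gcd q r * ((r / Nat.gcd q r) * s₀) := by
              rw [← e1, ← mul_assoc, ← e2]; exact h3
            exact Nat.dvd_of_mul_dvd_mul_left hgpos h6
          exact hc.dvd_of_dvd_mul_left h5
        exact Nat.le_of_dvd (by omega) h4
    refine ⟨by rw [← hs₀eq]; exact hcase1, ?_⟩
    intro y x₀ P hP
    have h := hbasic y x₀ P hP
    have e : (q : ℝ) * ℓ / s₀ = ℓ * (Nat.gcd q r : ℝ) := by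
      have hgpos : 0 < Nat.gcd q r := Nat.gcd_pos_of_pos_left _ hq
      have e1 : (q : ℝ) = (Nat.gcd q r : ℝ) * s₀ := by
        rw [hs₀eq]; exact_mod_cast (Nat.mul_div_cancel' (Nat.gcd_dvd_left q r)).symm
      rw [div_eq_iff (by linarith)]
      nlinarith
    rw [e] at h
    exact h
  · have hH1 : (1 : ℝ) ≤ |(H : ℝ)| := by
      rw [← Int.cast_abs]
      exact_mod_cast Int.one_le_abs hH0
    have hHlt : |(H : ℝ)| < 4 * (Δ * q * r) := by rw [hHr]; exact ht₀
    -- general estimate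
    have hgen : ∀ (y x₀ : ℝ) (P : Finset (ℤ × ℤ)), InStrip q r Δ ℓ y x₀ P →
        (P.card : ℝ) ≤ (|(H : ℝ)| * ℓ + 2) * (1 + 4 * (Δ * q * r) / |(H : ℝ)|) := by
      intro y x₀ P hP
      let g : ℤ × ℤ → ℤ := fun p => p.1 * t₀ - p.2 * s₀
      apply card_le_fib P g
      · -- image
        have himg := sep_card (P.image g) (fun c : ℤ => (c : ℝ)) 1
          (-(|(H : ℝ)| * ℓ) / 2 - (x₀ + ℓ / 2) * H - (t₀ - s₀) * y - 1 / 4)
          ((|(H : ℝ)| * ℓ) / 2 - (x₀ + ℓ / 2) * H - (t₀ - s₀) * y + 1 / 4)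
          one_pos (by nlinarith)
          (by
            intro c hc
            rw [Finset.mem_image] at hc
            obtain ⟨p, hp, rfl⟩ := hc
            obtain ⟨h1, h2, h3⟩ := hP p hp
            -- g p = -(a+y) H / q + s₀ θ / q - (t₀ - s₀) y
            set θ := (r : ℝ) * (p.1 + y) - q * (p.2 + y) with hθ
            have e : ((g p : ℤ) : ℝ) = -((p.1 + y) / q) * H + s₀ * θ / q - (t₀ - s₀) * y := by
              simp only [g]
              rw [hHr, hθ]
              push_cast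
              field_simp
              ring
            have hw1 : x₀ ≤ (p.1 + y) / q := by rw [le_div_iff₀ hqr]; linarith
            have hw2 : (p.1 + y) / q ≤ x₀ + ℓ := by rw [div_le_iff₀ hqr]; linarith
            set w := ((p.1 : ℝ) + y) / q with hw
            have hwabs : |w - (x₀ + ℓ / 2)| ≤ ℓ / 2 := by
              rw [abs_le]; constructor <;> linarith
            have hwH : |(w - (x₀ + ℓ / 2)) * H| ≤ ℓ / 2 * |(H : ℝ)| := by
              rw [abs_mul]; exact mul_le_mul_of_nonneg_right hwabs (abs_nonneg _)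
            have hθq : |s₀ * θ / q| ≤ 1 / 4 := by
              rw [abs_div, abs_mul, Nat.abs_cast, Nat.abs_cast, div_le_iff₀ hqr]
              have : (s₀ : ℝ) * |θ| ≤ s₀ * (2 * (Δ * q * r)) := by gcongr
              nlinarith
            rw [e]
            rw [abs_le] at hwH hθq
            constructor <;> nlinarith [hwH.1, hwH.2, hθq.1, hθq.2])
          (by
            intro c _ c' _ hne
            have : (1 : ℤ) ≤ |c - c'| := Int.one_le_abs (sub_ne_zero.mpr hne)
            exact_mod_cast this)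
        have e : 1 + ((|(H : ℝ)| * ℓ) / 2 - (x₀ + ℓ / 2) * H - (t₀ - s₀) * y + 1 / 4
            - (-(|(H : ℝ)| * ℓ) / 2 - (x₀ + ℓ / 2) * H - (t₀ - s₀) * y - 1 / 4)) / 1
            = |(H : ℝ)| * ℓ + 3 / 2 := by ring
        rw [e] at himg
        linarith
      · positivity
      · intro k _
        have hfib := sep_card (P.filter (fun p => g p = k))
          (fun p => (r : ℝ) * (p.1 + y) - q * (p.2 + y)) |(H : ℝ)|
          (-(2 * (Δ * q * r))) (2 * (Δ * q * r)) (by linarith) (by linarith)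
          (by
            intro p hp
            rw [Finset.mem_filter] at hp
            have := (hP p hp.1).2.2
            rw [abs_lt] at this
            exact ⟨this.1.le, this.2.le⟩)
          (by
            intro p hp p' hp' hne
            rw [Finset.mem_filter] at hp hp'
            have hgg : (p.1 - p'.1) * t₀ = (p.2 - p'.2) * s₀ := by
              have : g p = g p' := hp.2.trans hp'.2.symm
              simp only [g] at this
              linarith
            have hd : (s₀ : ℤ) ∣ (p.1 - p'.1) := by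
              apply hprim.dvd_of_dvd_mul_right
              exact ⟨p.2 - p'.2, by rw [hgg]; ring⟩
            obtain ⟨j, hj⟩ := hd
            have hs₀0 : (s₀ : ℤ) ≠ 0 := by exact_mod_cast (by omega : s₀ ≠ 0)
            have hj2 : p.2 - p'.2 = t₀ * j := by
              apply mul_right_cancel₀ hs₀0
              rw [← hgg, hj]; ring
            have hj0 : j ≠ 0 := by
              rintro rfl
              apply hne
              refine Prod.ext ?_ ?_
              · simp at hj; omega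
              · simp at hj2; omega
            have e : (r : ℝ) * (p.1 + y) - q * (p.2 + y) - ((r : ℝ) * (p'.1 + y) - q * (p'.2 + y))
                = j * H := by
              have e1 : (p.1 : ℝ) - p'.1 = s₀ * j := by exact_mod_cast hj
              have e2 : (p.2 : ℝ) - p'.2 = t₀ * j := by exact_mod_cast hj2
              rw [hHr]
              linear_combination (r : ℝ) * e1 - (q : ℝ) * e2
            have e' : |(r : ℝ) * (p.1 + y) - q * (p.2 + y) - ((r : ℝ) * (p'.1 + y) - q * (p'.2 + y))|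
                = |(j : ℝ)| * |(H : ℝ)| := by rw [e, abs_mul]
            change |(H : ℝ)| ≤ |(r : ℝ) * (p.1 + y) - q * (p.2 + y) - ((r : ℝ) * (p'.1 + y) - q * (p'.2 + y))|
            rw [e']
            have hj1 : (1 : ℝ) ≤ |(j : ℝ)| := by
              rw [← Int.cast_abs]; exact_mod_cast Int.one_le_abs hj0
            nlinarith [abs_nonneg (H : ℝ)])
        have e : (2 * (Δ * q * r) - -(2 * (Δ * q * r))) / |(H : ℝ)| = 4 * (Δ * q * r) / |(H : ℝ)| := by
          ring
        rw [e] at hfib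
        exact hfib
    have hHpos : 0 < |(H : ℝ)| := by linarith
    have hexp : (|(H : ℝ)| * ℓ + 2) * (1 + 4 * (Δ * q * r) / |(H : ℝ)|)
        = |(H : ℝ)| * ℓ + 2 + 4 * (Δ * q * r) * ℓ + 8 * (Δ * q * r) / |(H : ℝ)| := by
      field_simp
      ring
    have hHℓ : |(H : ℝ)| * ℓ ≤ 4 * (Δ * q * r) * ℓ := mul_le_mul_of_nonneg_right hHlt.le hℓ.le
    have hDℓ : (Δ * q * r) * ℓ ≤ (Δ * q * r) := by nlinarith
    by_cases hbad : |(H : ℝ)| * ℓ < 1
    · right
      left
      refine ⟨s₀, t₀, H, by exact_mod_cast h1s, rfl, hH0, hbad, by push_cast; exact hcase1, ?_⟩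
      intro y x₀ P hP
      have h1 := hgen y x₀ P hP
      rw [hexp] at h1
      have h2 : 8 * (Δ * q * r) / |(H : ℝ)| ≤ 8 * (Δ * q * r) :=
        div_le_self (by positivity) hH1
      nlinarith
    · left
      push Not at hbad
      intro y x₀ P hP
      have h1 := hgen y x₀ P hP
      rw [hexp] at h1
      have h2 : 8 * (Δ * q * r) / |(H : ℝ)| ≤ 8 * (Δ * q * r) * ℓ := by
        rw [div_le_iff₀ hHpos]
        nlinarith
      nlinarith

end Pool.Agent.H963R5
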