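import Mathlib

set_option autoImplicit false

namespace Pool.Agent.H963R5

open Finset

theorem sum_le_of_inj {ι κ : Type*} [DecidableEq κ] (E : Finset ι) (φ : ι → κ) (B : Finset κ)
    (f : ι → ℝ) (g : κ → ℝ) (hinj : Set.InjOn φ (E : Set ι)) (hmap : ∀ x ∈ E, φ x ∈ B)
    (hg : ∀ k ∈ B, 0 ≤ g k) (hfg : ∀ x ∈ E, f x ≤ g (φ x)) :
    ∑ x ∈ E, f x ≤ ∑ k ∈ B, g k := by
  calc ∑ x ∈ E, f x ≤ ∑ x ∈ E, g (φ x) := Finset.sum_le_sum hfg
    _ = ∑ k ∈ E.image φ, g k := (Finset.sum_image hinj).symm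
    _ ≤ ∑ k ∈ B, g k := by
        apply Finset.sum_le_sum_of_subset_of_nonneg
        · intro k hk
          rw [Finset.mem_image] at hk
          obtain ⟨x, hx, rfl⟩ := hk
          exact hmap x hx
        · intro k hk _
          exact hg k hk

theorem tele_sum (T : ℝ) (hT : 1 ≤ T) (J : ℕ) :
    ∑ j ∈ Finset.Icc 1 J, 4 / ((4 * ((j : ℝ) - 1) + T) * (4 * j + T)) ≤ 1 / T := by
  have h : ∀ J : ℕ, ∑ j ∈ Finset.Icc 1 J, 4 / ((4 * ((j : ℝ) - 1) + T) * (4 * j + T))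
      = 1 / T - 1 / (4 * J + T) := by
    intro J
    induction J with
    | zero => simp
    | succ n ih =>
      rw [Finset.sum_Icc_succ_top (by omega), ih]
      have h1 : (0 : ℝ) < 4 * n + T := by positivity
      have h2 : (0 : ℝ) < 4 * ((n : ℝ) + 1) + T := by positivity
      have h3 : (0 : ℝ) < T := by linarith
      push_cast
      have e : 4 * ((n : ℝ) + 1 - 1) + T = 4 * n + T := by ring
      rw [e]
      field_simp
      ring
  rw [h]
  have : (0 : ℝ) ≤ 1 / (4 * J + T) := by positivity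
  linarith

theorem weighted_sum (T : ℝ) (hT : 1 ≤ T) (E : Finset ℕ) (f : ℕ → ℝ) (i j : ℕ → ℕ) (k : ℕ → ℤ)
    (h : ℕ) (h1 : ∀ x ∈ E, 1 ≤ i x ∧ (i x : ℝ) ≤ T / 4) (h2 : ∀ x ∈ E, 1 ≤ j x)
    (h3 : ∀ x ∈ E, |k x| ≤ h) (hf : ∀ x ∈ E, 0 ≤ f x ∧ f x * (4 * j x + T) ≤ 2)
    (hinj : Set.InjOn (fun x => (i x, (j x, k x))) (E : Set ℕ)) :
    ∑ x ∈ E, (f x) ^ 2 ≤ (2 * h + 1) / 4 := by
  classical
  have hT0 : 0 < T := by linarith
  let J := E.sup j
  have key := sum_le_of_inj E (fun x => (i x, (j x, k x)))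
    (Finset.Icc 1 ⌊T / 4⌋₊ ×ˢ (Finset.Icc 1 J ×ˢ Finset.Icc (-(h : ℤ)) h))
    (fun x => (f x) ^ 2) (fun p => 4 / ((4 * ((p.2.1 : ℝ) - 1) + T) * (4 * p.2.1 + T))) hinj
    (by
      intro x hx
      simp only [Finset.mem_product, Finset.mem_Icc]
      refine ⟨⟨(h1 x hx).1, Nat.le_floor (h1 x hx).2⟩, ⟨h2 x hx, Finset.le_sup hx⟩, ?_⟩
      exact abs_le.mp (h3 x hx))
    (by
      intro p hp
      simp only [Finset.mem_product, Finset.mem_Icc] at hp
      have : (1 : ℝ) ≤ p.2.1 := by exact_mod_cast hp.2.1.1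
      have h5 : (0 : ℝ) ≤ 4 * ((p.2.1 : ℝ) - 1) + T := by linarith
      positivity)
    (by
      intro x hx
      have hj : (1 : ℝ) ≤ j x := by exact_mod_cast h2 x hx
      obtain ⟨hf0, hf1⟩ := hf x hx
      have hp1 : (0 : ℝ) < 4 * ((j x : ℝ) - 1) + T := by linarith
      have hp2 : (0 : ℝ) < 4 * (j x : ℝ) + T := by linarith
      change (f x) ^ 2 ≤ 4 / ((4 * ((j x : ℝ) - 1) + T) * (4 * (j x : ℝ) + T))
      rw [le_div_iff₀ (by positivity)]
      have h6 : (f x * (4 * (j x : ℝ) + T)) ^ 2 ≤ 2 ^ 2 := by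
        apply pow_le_pow_left₀ (by positivity) hf1
      have h7 : f x ^ 2 * ((4 * ((j x : ℝ) - 1) + T) * (4 * (j x : ℝ) + T))
          ≤ f x ^ 2 * ((4 * (j x : ℝ) + T) * (4 * (j x : ℝ) + T)) := by
        gcongr
        linarith
      nlinarith)
  refine key.trans ?_
  rw [Finset.sum_product]
  simp only [Finset.sum_product]
  simp only [Finset.sum_const, nsmul_eq_mul]
  rw [← Finset.mul_sum]
  have hcard : ((Finset.Icc 1 ⌊T / 4⌋₊).card : ℝ) ≤ T / 4 := by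
    rw [Nat.card_Icc, Nat.add_sub_cancel]
    exact Nat.floor_le (by positivity)
  have hcard2 : ((Finset.Icc (-(h : ℤ)) h).card : ℝ) = 2 * h + 1 := by
    rw [Int.card_Icc]
    have : ((h : ℤ) + 1 - -(h : ℤ)).toNat = 2 * h + 1 := by omega
    rw [this]; push_cast; ring
  rw [hcard2]
  have ht := tele_sum T hT J
  have ht0 : 0 ≤ ∑ j ∈ Finset.Icc 1 J, 4 / ((4 * ((j : ℝ) - 1) + T) * (4 * j + T)) := by
    apply Finset.sum_nonneg
    intro j hj
    rw [Finset.mem_Icc] at hj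
    have : (1 : ℝ) ≤ j := by exact_mod_cast hj.1
    have h5 : (0 : ℝ) ≤ 4 * ((j : ℝ) - 1) + T := by linarith
    positivity
  calc ((Finset.Icc 1 ⌊T / 4⌋₊).card : ℝ) * ((2 * h + 1) *
        ∑ j ∈ Finset.Icc 1 J, 4 / ((4 * ((j : ℝ) - 1) + T) * (4 * j + T)))
      ≤ (T / 4) * ((2 * h + 1) * (1 / T)) := by gcongr
    _ = (2 * h + 1) / 4 := by field_simp

/-- u = q / gcd(q,r) -/
def uu (q r : ℕ) : ℕ := q / Nat.gcd q r

/-- v = r / gcd(q,r) -/
def vv (q r : ℕ) : ℕ := r / Nat.gcd q r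

theorem uu_mul (q r : ℕ) : q * vv q r = r * uu q r := by
  unfold uu vv
  rw [← Nat.mul_div_assoc _ (Nat.gcd_dvd_right _ _), ← Nat.mul_div_assoc _ (Nat.gcd_dvd_left _ _),
    mul_comm]

theorem uu_pos {q r : ℕ} (hq : 0 < q) : 0 < uu q r :=
  Nat.div_pos (Nat.le_of_dvd hq (Nat.gcd_dvd_left _ _)) (Nat.gcd_pos_of_pos_left _ hq)

theorem vv_pos {q r : ℕ} (hr : 0 < r) : 0 < vv q r :=
  Nat.div_pos (Nat.le_of_dvd hr (Nat.gcd_dvd_right _ _)) (Nat.gcd_pos_of_pos_right _ hr)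

theorem vv_lt_uu {q r : ℕ} (hr : 0 < r) (hrq : r < q) : vv q r < uu q r := by
  have h := uu_mul q r
  by_contra hcon
  push Not at hcon
  have h1 : r * uu q r ≤ r * vv q r := Nat.mul_le_mul_left _ hcon
  have h2 : r * vv q r < q * vv q r := Nat.mul_lt_mul_of_pos_right hrq (vv_pos hr)
  omega

theorem uu_dvd (q r : ℕ) : uu q r ∣ q := Nat.div_dvd_of_dvd (Nat.gcd_dvd_left _ _)

theorem uu_coprime_vv {q r : ℕ} (hq : 0 < q) : Nat.Coprime (uu q r) (vv q r) :=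
  Nat.coprime_div_gcd_div_gcd (Nat.gcd_pos_of_pos_left _ hq)

/-- for fixed `q`, the pair `(u,v)` determines `r` -/
theorem uv_inj_r {q : ℕ} (hq : 0 < q) (r r' : ℕ) (hu : uu q r = uu q r') (hv : vv q r = vv q r') :
    r = r' := by
  have h1 := uu_mul q r
  have h2 := uu_mul q r'
  rw [← hu, ← hv] at h2
  have : r * uu q r = r' * uu q r := h1.symm.trans h2
  exact Nat.eq_of_mul_eq_mul_right (uu_pos hq) this

theorem uv_inj_q {r : ℕ} (hr : 0 < r) (q q' : ℕ) (hu : uu q r = uu q' r)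
    (hv : vv q r = vv q' r) : q = q' := by
  have h1 := uu_mul q r
  have h2 := uu_mul q' r
  rw [← hu, ← hv] at h2
  have : q * vv q r = q' * vv q r := h1.trans h2.symm
  exact Nat.eq_of_mul_eq_mul_right (vv_pos hr) this

theorem G1_sum (A : ℝ) (hA : 0 < A) (hA16 : A ≤ 1 / 16) (q : ℕ) (hq : 0 < q) (E : Finset ℕ)
    (hE : ∀ r ∈ E, 0 < r ∧ r < q ∧ 1 < 8 * A * uu q r ∧ 8 * A * vv q r < 1) :
    ∑ r ∈ E, 8 * A ^ 2 / (uu q r : ℝ) ^ 2 ≤ 8 * A ^ 2 := by
  classical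
  set X := ⌊1 / (8 * A)⌋₊ with hX
  have hX1 : 1 ≤ X := by
    rw [hX]
    apply Nat.le_floor
    rw [le_div_iff₀ (by positivity)]
    push_cast
    linarith
  have hXr : (X : ℝ) ≤ 1 / (8 * A) := Nat.floor_le (by positivity)
  by_cases hXq : X ≤ q
  · have key := sum_le_of_inj E (fun r => (uu q r, vv q r))
      (Finset.Ioc X q ×ˢ Finset.Icc 1 X) (fun r => 8 * A ^ 2 / (uu q r : ℝ) ^ 2)
      (fun p => 8 * A ^ 2 * ((p.1 : ℝ) ^ 2)⁻¹)
      (by
        intro r _ r' _ h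
        simp only [Prod.mk.injEq] at h
        exact uv_inj_r hq r r' h.1 h.2)
      (by
        intro r hr
        obtain ⟨h1, h2, h3, h4⟩ := hE r hr
        simp only [Finset.mem_product, Finset.mem_Ioc, Finset.mem_Icc]
        refine ⟨⟨?_, Nat.le_of_dvd hq (uu_dvd q r)⟩, vv_pos h1, ?_⟩
        · rw [hX, Nat.floor_lt (by positivity), div_lt_iff₀ (by positivity)]
          linarith
        · apply Nat.le_floor
          rw [le_div_iff₀ (by positivity)]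
          linarith)
      (by intro p _; positivity)
      (by intro r _; rw [div_eq_mul_inv])
    refine key.trans ?_
    rw [Finset.sum_product]
    simp only [Finset.sum_const, nsmul_eq_mul, Nat.card_Icc, Nat.add_sub_cancel]
    rw [← Finset.mul_sum, ← Finset.mul_sum]
    have hs := sum_Ioc_inv_sq_le_sub (α := ℝ) (k := X) (n := q) (by omega) hXq
    have hXpos : (0 : ℝ) < X := by exact_mod_cast hX1
    have hs2 : ∑ i ∈ Finset.Ioc X q, ((i : ℝ) ^ 2)⁻¹ ≤ (X : ℝ)⁻¹ := by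
      have : (0 : ℝ) ≤ (q : ℝ)⁻¹ := by positivity
      linarith
    calc (X : ℝ) * (8 * A ^ 2 * ∑ i ∈ Finset.Ioc X q, ((i : ℝ) ^ 2)⁻¹)
        ≤ (X : ℝ) * (8 * A ^ 2 * (X : ℝ)⁻¹) := by gcongr
      _ = 8 * A ^ 2 := by field_simp
  · -- then E is empty
    have : E = ∅ := by
      rw [Finset.eq_empty_iff_forall_notMem]
      intro r hr
      obtain ⟨h1, h2, h3, h4⟩ := hE r hr
      have h5 : uu q r ≤ q := Nat.le_of_dvd hq (uu_dvd q r)
      have h6 : X < uu q r := by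
        rw [hX, Nat.floor_lt (by positivity), div_lt_iff₀ (by positivity)]
        linarith
      omega
    rw [this]; simp; positivity

theorem sum_inv_sqrt (n : ℕ) : ∑ u ∈ Finset.Icc 1 n, 1 / Real.sqrt u ≤ 2 * Real.sqrt n := by
  induction n with
  | zero => simp
  | succ n ih =>
    rw [Finset.sum_Icc_succ_top (by omega)]
    have h1 : 0 < Real.sqrt ((n + 1 : ℕ) : ℝ) := Real.sqrt_pos.mpr (by positivity)
    have h2 : Real.sqrt (n : ℝ) ≤ Real.sqrt ((n + 1 : ℕ) : ℝ) :=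
      Real.sqrt_le_sqrt (by push_cast; linarith)
    have h3 : Real.sqrt ((n + 1 : ℕ) : ℝ) ^ 2 = n + 1 := by
      rw [Real.sq_sqrt (by positivity)]; push_cast; ring
    have h4 : Real.sqrt (n : ℝ) ^ 2 = n := Real.sq_sqrt (by positivity)
    have h5 : 1 / Real.sqrt ((n + 1 : ℕ) : ℝ)
        ≤ 2 * Real.sqrt ((n + 1 : ℕ) : ℝ) - 2 * Real.sqrt n := by
      rw [div_le_iff₀ h1]
      nlinarith [Real.sqrt_nonneg (n : ℝ)]
    linarith

theorem G3_sum (A : ℝ) (hA : 0 < A) (q : ℕ) (hq : 0 < q) (E : Finset ℕ)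
    (Y : ℕ → Finset ℕ)
    (hY : ∀ u, 2 ≤ u → u ∣ q → 8 * A * u ≤ 1 → ((Y u).card : ℝ) ≤ 16 * u * Real.sqrt (u * A / 2))
    (hE : ∀ r ∈ E, 0 < r ∧ r < q ∧ 8 * A * uu q r ≤ 1 ∧ (uu q r - vv q r) ∈ Y (uu q r)) :
    ∑ r ∈ E, 8 * A ^ 2 / (uu q r : ℝ) ^ 2 ≤ 64 * A ^ 2 := by
  classical
  set X := ⌊1 / (8 * A)⌋₊ with hX
  let D := (Finset.Icc 1 X).filter (fun u => 2 ≤ u ∧ u ∣ q ∧ 8 * A * (u : ℝ) ≤ 1)
  have key := sum_le_of_inj E (fun r => (⟨uu q r, uu q r - vv q r⟩ : (_ : ℕ) × ℕ))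
    (D.sigma Y) (fun r => 8 * A ^ 2 / (uu q r : ℝ) ^ 2)
    (fun p => 8 * A ^ 2 / (p.1 : ℝ) ^ 2)
    (by
      intro r hr r' hr' h
      simp only [Sigma.mk.injEq, heq_eq_eq] at h
      obtain ⟨h1, h2, _, _⟩ := hE r hr
      obtain ⟨h1', h2', _, _⟩ := hE r' hr'
      have a1 := vv_lt_uu h1 h2
      have a2 := vv_lt_uu h1' h2'
      exact uv_inj_r hq r r' h.1 (by omega))
    (by
      intro r hr
      obtain ⟨h1, h2, h3, h4⟩ := hE r hr
      have a1 := vv_lt_uu h1 h2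
      have a2 := vv_pos (q := q) h1
      rw [Finset.mem_sigma]
      refine ⟨?_, h4⟩
      simp only [D, Finset.mem_filter, Finset.mem_Icc]
      refine ⟨⟨by omega, ?_⟩, by omega, uu_dvd q r, h3⟩
      apply Nat.le_floor
      rw [le_div_iff₀ (by positivity)]
      linarith)
    (by intro p _; positivity)
    (by intro r _; exact le_rfl)
  refine key.trans ?_
  rw [Finset.sum_sigma]
  simp only [Finset.sum_const, nsmul_eq_mul]
  have h1 : ∀ u ∈ D, ((Y u).card : ℝ) * (8 * A ^ 2 / (u : ℝ) ^ 2)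
      ≤ 128 * A ^ 2 * Real.sqrt (A / 2) * (1 / Real.sqrt u) := by
    intro u hu
    simp only [D, Finset.mem_filter, Finset.mem_Icc] at hu
    obtain ⟨⟨hu1, _⟩, hu2, hu3, hu4⟩ := hu
    have hur : (0 : ℝ) < u := by exact_mod_cast hu1
    have hsu : 0 < Real.sqrt (u : ℝ) := Real.sqrt_pos.mpr hur
    calc ((Y u).card : ℝ) * (8 * A ^ 2 / (u : ℝ) ^ 2)
        ≤ (16 * u * Real.sqrt (u * A / 2)) * (8 * A ^ 2 / (u : ℝ) ^ 2) := by
          gcongr
          exact hY u hu2 hu3 hu4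
      _ = 128 * A ^ 2 * Real.sqrt (A / 2) * (1 / Real.sqrt u) := by
          have e : Real.sqrt (u * A / 2) = Real.sqrt u * Real.sqrt (A / 2) := by
            rw [mul_div_assoc, Real.sqrt_mul hur.le]
          rw [e]
          have e2 : (u : ℝ) = Real.sqrt u * Real.sqrt u := (Real.mul_self_sqrt hur.le).symm
          field_simp
          rw [Real.sq_sqrt hur.le]
          ring
  refine (Finset.sum_le_sum h1).trans ?_
  rw [← Finset.mul_sum]
  have h2 : ∑ u ∈ D, 1 / Real.sqrt (u : ℝ) ≤ 2 * Real.sqrt (1 / (8 * A)) := by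
    calc ∑ u ∈ D, 1 / Real.sqrt (u : ℝ) ≤ ∑ u ∈ Finset.Icc 1 X, 1 / Real.sqrt (u : ℝ) := by
          apply Finset.sum_le_sum_of_subset_of_nonneg (Finset.filter_subset _ _)
          intro u _ _; positivity
      _ ≤ 2 * Real.sqrt X := sum_inv_sqrt X
      _ ≤ 2 * Real.sqrt (1 / (8 * A)) := by
          gcongr
          exact Nat.floor_le (by positivity)
  calc 128 * A ^ 2 * Real.sqrt (A / 2) * ∑ u ∈ D, 1 / Real.sqrt (u : ℝ)
      ≤ 128 * A ^ 2 * Real.sqrt (A / 2) * (2 * Real.sqrt (1 / (8 * A))) := by gcongr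
    _ = 256 * A ^ 2 * (Real.sqrt (A / 2) * Real.sqrt (1 / (8 * A))) := by ring
    _ = 256 * A ^ 2 * (1 / 4) := by
        rw [← Real.sqrt_mul (by positivity)]
        have : A / 2 * (1 / (8 * A)) = (1 / 4) ^ 2 := by field_simp; norm_num
        rw [this, Real.sqrt_sq (by norm_num)]
    _ = 64 * A ^ 2 := by ring

theorem G2_sum (B : ℝ) (hB : 0 < B) (r : ℕ) (hr : 0 < r) (E : Finset ℕ)
    (hE : ∀ q ∈ E, r < q ∧ 8 * B * uu q r < 1) :
    ∑ q ∈ E, (512 * B ^ 4 : ℝ) ≤ 8 * B ^ 2 := by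
  classical
  set X := ⌊1 / (8 * B)⌋₊ with hX
  have hXr : (X : ℝ) ≤ 1 / (8 * B) := Nat.floor_le (by positivity)
  have key := sum_le_of_inj E (fun q => (uu q r, vv q r))
    (Finset.Icc 1 X ×ˢ Finset.Icc 1 X) (fun _ => 512 * B ^ 4)
    (fun _ => 512 * B ^ 4)
    (by
      intro q _ q' _ h
      simp only [Prod.mk.injEq] at h
      exact uv_inj_q hr q q' h.1 h.2)
    (by
      intro q hq
      obtain ⟨h1, h2⟩ := hE q hq
      have hq0 : 0 < q := by omega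
      have a1 := vv_lt_uu hr h1
      have a3 : uu q r ≤ X := by
        apply Nat.le_floor
        rw [le_div_iff₀ (by positivity)]
        linarith
      simp only [Finset.mem_product, Finset.mem_Icc]
      exact ⟨⟨uu_pos hq0, a3⟩, vv_pos hr, by omega⟩)
    (by intro p _; positivity)
    (by intro q _; exact le_rfl)
  refine key.trans ?_
  rw [Finset.sum_const, nsmul_eq_mul, Finset.card_product]
  simp only [Nat.card_Icc, Nat.add_sub_cancel]
  push_cast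
  calc (X : ℝ) * X * (512 * B ^ 4) ≤ (1 / (8 * B)) * (1 / (8 * B)) * (512 * B ^ 4) := by gcongr
    _ = 8 * B ^ 2 := by field_simp; norm_num

end Pool.Agent.H963R5
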