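import Mathlib
import Pool.Agent.H963R5.Strip
import Pool.Agent.H963R5.Meas
import Pool.Agent.H963R5.Sums
import Pool.Agent.H963R5.Res

set_option autoImplicit false

namespace Pool.Agent.H963R5

open Finset MeasureTheory Metric

/-- centre `(a + y)/q` -/
noncomputable def ctr (y : ℝ × ℝ) (q : ℕ) (a : ℤ × ℤ) : ℝ × ℝ :=
  (((a.1 : ℝ) + y.1) / q, ((a.2 : ℝ) + y.2) / q)

/-- union of balls -/
noncomputable def Aset (y : ℝ × ℝ) (q : ℕ) (A : ℝ) (S : Finset (ℤ × ℤ)) : Set (ℝ × ℝ) :=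
  ⋃ a ∈ S, ball (ctr y q a) (A / q)

def Bad (ℓ A B : ℝ) (q r : ℕ) : Prop :=
  ∃ (s t : ℕ) (H : ℤ), 1 ≤ s ∧ 1 ≤ t ∧ (r : ℤ) * s - q * t = H ∧ |(H : ℝ)| * ℓ < 1 ∧
    8 * B * s < 1 ∧ 4 * A * t < 1

def G13 (A : ℝ) (Y : ℕ → Finset ℕ) (q r : ℕ) : Prop :=
  (1 < 8 * A * uu q r ∧ 8 * A * vv q r < 1) ∨
    (8 * A * uu q r ≤ 1 ∧ (uu q r - vv q r) ∈ Y (uu q r))

theorem strip_of_dist {q r : ℕ} (hq : 0 < q) (hr : 0 < r) {A B : ℝ} {α β : ℝ}
    (h : |α / q - β / r| < A / q + B / r) :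
    |(r : ℝ) * α - q * β| < 2 * (max (A / q) (B / r) * q * r) := by
  have hqr : (0 : ℝ) < q := by exact_mod_cast hq
  have hrr : (0 : ℝ) < r := by exact_mod_cast hr
  have e : (r : ℝ) * α - q * β = (α / q - β / r) * (q * r) := by field_simp
  rw [e, abs_mul, abs_of_pos (by positivity : (0 : ℝ) < q * r)]
  have h1 : A / q + B / r ≤ 2 * max (A / q) (B / r) := by
    have := le_max_left (A / q) (B / r)
    have := le_max_right (A / q) (B / r)
    linarith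
  calc |α / q - β / r| * (q * r) < (A / q + B / r) * (q * r) := by
        apply mul_lt_mul_of_pos_right h (by positivity)
    _ ≤ (2 * max (A / q) (B / r)) * (q * r) := by gcongr
    _ = _ := by ring

end Pool.Agent.H963R5
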