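import Mathlib
import Pool.Agent.H963R5.Defs

set_option autoImplicit false

namespace Pool.Agent.H963R5

open Finset MeasureTheory Metric

/-- splitting a symmetric double sum -/
theorem sym_sum (F : Finset ℕ) (f : ℕ → ℕ → ℝ) (hsym : ∀ i j, f i j = f j i) :
    ∑ i ∈ F, ∑ j ∈ F, f i j = ∑ i ∈ F, f i i + 2 * ∑ i ∈ F, ∑ j ∈ F.filter (fun j => j < i), f i j := by
  classical
  have h1 : ∀ i ∈ F, ∑ j ∈ F, f i j = f i i + ∑ j ∈ F.filter (fun j => j < i), f i j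
      + ∑ j ∈ F.filter (fun j => i < j), f i j := by
    intro i hi
    have e : ∀ j ∈ F, f i j = (if j = i then f i j else 0) + (if j < i then f i j else 0)
        + (if i < j then f i j else 0) := by
      intro j _
      rcases lt_trichotomy i j with h | h | h
      · rw [if_neg h.ne', if_neg (by omega), if_pos h]; ring
      · subst h; simp
      · rw [if_neg h.ne, if_pos h, if_neg (by omega)]; ring
    rw [Finset.sum_congr rfl e, Finset.sum_add_distrib, Finset.sum_add_distrib,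
      Finset.sum_ite_eq' F i, if_pos hi, Finset.sum_filter, Finset.sum_filter]
  rw [Finset.sum_congr rfl h1, Finset.sum_add_distrib, Finset.sum_add_distrib]
  have h2 : ∑ i ∈ F, ∑ j ∈ F.filter (fun j => i < j), f i j
      = ∑ i ∈ F, ∑ j ∈ F.filter (fun j => j < i), f i j := by
    simp only [Finset.sum_filter]
    rw [Finset.sum_comm]
    apply Finset.sum_congr rfl
    intro i _
    apply Finset.sum_congr rfl
    intro j _
    rw [hsym j i]
  rw [h2]; ring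

open Classical in
/-- the sum over bad pairs -/
theorem bad_total (F : Finset ℕ) (ψ : ℕ → ℝ) (ℓ : ℝ) (hℓ : 0 < ℓ)
    (hψ : ∀ q ∈ F, 0 < ψ q ∧ ψ q ≤ 1 / 16) (hF : ∀ q ∈ F, 0 < q) :
    ∑ q ∈ F, ∑ r ∈ F.filter (fun r => r < q),
      (if Bad ℓ (ψ q) (ψ r) q r then 2048 * (ψ q ^ 2 * ψ r ^ 2) else 0)
      ≤ 1024 * (2 * (⌊1 / ℓ⌋₊ : ℝ) + 1) * ∑ q ∈ F, ψ q ^ 2 := by
  set h := ⌊1 / ℓ⌋₊ with hh
  have hHle : ∀ H : ℤ, |(H : ℝ)| * ℓ < 1 → |H| ≤ h := by
    intro H hH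
    have h1 : |(H : ℝ)| ≤ 1 / ℓ := by rw [le_div_iff₀ hℓ]; exact hH.le
    have h2 : (H.natAbs : ℝ) ≤ 1 / ℓ := by
      have : ((H.natAbs : ℕ) : ℝ) = |(H : ℝ)| := by
        rw [← Int.cast_abs, Int.abs_eq_natAbs]; simp
      rw [this]; exact h1
    have h3 : H.natAbs ≤ h := Nat.le_floor h2
    rw [Int.abs_eq_natAbs]
    exact_mod_cast h3
  -- part 1 : ψ q ≤ ψ r, fixed r
  have part1 : ∀ r ∈ F, ∑ q ∈ F.filter (fun q => r < q ∧ Bad ℓ (ψ q) (ψ r) q r ∧ ψ q ≤ ψ r),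
      (ψ q) ^ 2 ≤ (2 * h + 1) / 4 := by
    intro r hr
    obtain ⟨hr0, hr16⟩ := hψ r hr
    have hch : ∀ q, ∃ (s t : ℕ) (H : ℤ), Bad ℓ (ψ q) (ψ r) q r → (1 ≤ s ∧ 1 ≤ t ∧
        (r : ℤ) * s - q * t = H ∧ |(H : ℝ)| * ℓ < 1 ∧ 8 * (ψ r) * s < 1 ∧ 4 * (ψ q) * t < 1) := by
      intro q
      by_cases hb : Bad ℓ (ψ q) (ψ r) q r
      · obtain ⟨s, t, H, hx⟩ := hb
        exact ⟨s, t, H, fun _ => hx⟩
      · exact ⟨1, 1, 0, fun h => absurd h hb⟩
    choose s t H hst using hch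
    apply weighted_sum (1 / ψ r) (by rw [le_div_iff₀ hr0]; linarith) _ ψ s t H h
    · intro q hq
      rw [Finset.mem_filter] at hq
      obtain ⟨h1, h2, h3, h4, h5, h6⟩ := hst q hq.2.2.1
      refine ⟨h1, ?_⟩
      rw [div_div, le_div_iff₀ (by positivity)]
      nlinarith
    · intro q hq
      rw [Finset.mem_filter] at hq
      exact (hst q hq.2.2.1).2.1
    · intro q hq
      rw [Finset.mem_filter] at hq
      exact hHle _ (hst q hq.2.2.1).2.2.2.1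
    · intro q hq
      rw [Finset.mem_filter] at hq
      obtain ⟨h1, h2, h3, h4, h5, h6⟩ := hst q hq.2.2.1
      have hq0 := (hψ q hq.1).1
      refine ⟨hq0.le, ?_⟩
      have h7 : ψ q * (1 / ψ r) ≤ 1 := by
        rw [mul_one_div, div_le_one hr0]; exact hq.2.2.2
      rw [mul_add]
      linarith
    · intro q hq q' hq' heq
      simp only [Prod.mk.injEq] at heq
      have hq := Finset.mem_filter.mp hq
      have hq' := Finset.mem_filter.mp hq'
      obtain ⟨h1, h2, h3, _⟩ := hst q hq.2.2.1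
      obtain ⟨h1', h2', h3', _⟩ := hst q' hq'.2.2.1
      rw [← heq.1, ← heq.2.1, ← heq.2.2] at h3'
      have h8 : (q : ℤ) * t q = q' * t q := by linarith
      have h9 : (t q : ℤ) ≠ 0 := by exact_mod_cast (by omega : t q ≠ 0)
      exact_mod_cast mul_right_cancel₀ h9 h8
  have part2 : ∀ q ∈ F, ∑ r ∈ F.filter (fun r => r < q ∧ Bad ℓ (ψ q) (ψ r) q r ∧ ψ r < ψ q),
      (ψ r) ^ 2 ≤ (2 * h + 1) / 4 := by
    intro q hq
    obtain ⟨hq0, hq16⟩ := hψ q hq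
    have hch : ∀ r, ∃ (s t : ℕ) (H : ℤ), Bad ℓ (ψ q) (ψ r) q r → (1 ≤ s ∧ 1 ≤ t ∧
        (r : ℤ) * s - q * t = H ∧ |(H : ℝ)| * ℓ < 1 ∧ 8 * (ψ r) * s < 1 ∧ 4 * (ψ q) * t < 1) := by
      intro r
      by_cases hb : Bad ℓ (ψ q) (ψ r) q r
      · obtain ⟨s, t, H, hx⟩ := hb
        exact ⟨s, t, H, fun _ => hx⟩
      · exact ⟨1, 1, 0, fun h => absurd h hb⟩
    choose s t H hst using hch
    apply weighted_sum (1 / ψ q) (by rw [le_div_iff₀ hq0]; linarith) _ ψ t s H h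
    · intro r hr
      rw [Finset.mem_filter] at hr
      obtain ⟨h1, h2, h3, h4, h5, h6⟩ := hst r hr.2.2.1
      refine ⟨h2, ?_⟩
      rw [div_div, le_div_iff₀ (by positivity)]
      nlinarith
    · intro r hr
      rw [Finset.mem_filter] at hr
      exact (hst r hr.2.2.1).1
    · intro r hr
      rw [Finset.mem_filter] at hr
      exact hHle _ (hst r hr.2.2.1).2.2.2.1
    · intro r hr
      rw [Finset.mem_filter] at hr
      obtain ⟨h1, h2, h3, h4, h5, h6⟩ := hst r hr.2.2.1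
      have hr0 := (hψ r hr.1).1
      refine ⟨hr0.le, ?_⟩
      have h7 : ψ r * (1 / ψ q) ≤ 1 := by
        rw [mul_one_div, div_le_one hq0]; exact hr.2.2.2.le
      have h8 : 0 ≤ ψ r * (s r : ℝ) := by positivity
      rw [mul_add]
      nlinarith
    · intro r hr r' hr' heq
      simp only [Prod.mk.injEq] at heq
      have hr := Finset.mem_filter.mp hr
      have hr' := Finset.mem_filter.mp hr'
      obtain ⟨h1, h2, h3, _⟩ := hst r hr.2.2.1
      obtain ⟨h1', h2', h3', _⟩ := hst r' hr'.2.2.1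
      rw [← heq.1, ← heq.2.1, ← heq.2.2] at h3'
      have h8 : (r : ℤ) * s r = r' * s r := by linarith
      have h9 : (s r : ℤ) ≠ 0 := by exact_mod_cast (by omega : s r ≠ 0)
      exact_mod_cast mul_right_cancel₀ h9 h8
  -- combine
  have hsplit : ∀ q ∈ F, ∑ r ∈ F.filter (fun r => r < q),
      (if Bad ℓ (ψ q) (ψ r) q r then 2048 * (ψ q ^ 2 * ψ r ^ 2) else 0)
      = 2048 * ∑ r ∈ F, (if r < q ∧ Bad ℓ (ψ q) (ψ r) q r ∧ ψ q ≤ ψ r then ψ q ^ 2 * ψ r ^ 2 else 0)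
      + 2048 * (ψ q ^ 2 *
        ∑ r ∈ F.filter (fun r => r < q ∧ Bad ℓ (ψ q) (ψ r) q r ∧ ψ r < ψ q), ψ r ^ 2) := by
    intro q _
    rw [Finset.sum_filter, Finset.sum_filter, Finset.mul_sum, Finset.mul_sum, Finset.mul_sum,
      ← Finset.sum_add_distrib]
    apply Finset.sum_congr rfl
    intro r _
    by_cases h1 : r < q
    · by_cases h2 : Bad ℓ (ψ q) (ψ r) q r
      · rcases le_or_gt (ψ q) (ψ r) with h3 | h3
        · rw [if_pos h1, if_pos h2, if_pos ⟨h1, h2, h3⟩, if_neg (by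
            rintro ⟨_, _, h4⟩; linarith)]
          ring
        · rw [if_pos h1, if_pos h2, if_neg (by rintro ⟨_, _, h4⟩; linarith), if_pos ⟨h1, h2, h3⟩]
          ring
      · rw [if_pos h1, if_neg h2, if_neg (by tauto), if_neg (by tauto)]; ring
    · rw [if_neg h1, if_neg (by tauto), if_neg (by tauto)]; ring
  rw [Finset.sum_congr rfl hsplit, Finset.sum_add_distrib, ← Finset.mul_sum, ← Finset.mul_sum]
  have hA : ∑ q ∈ F, ∑ r ∈ F, (if r < q ∧ Bad ℓ (ψ q) (ψ r) q r ∧ ψ q ≤ ψ r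
      then ψ q ^ 2 * ψ r ^ 2 else 0) ≤ (2 * h + 1) / 4 * ∑ r ∈ F, ψ r ^ 2 := by
    rw [Finset.sum_comm, Finset.mul_sum]
    apply Finset.sum_le_sum
    intro r hr
    have e : ∑ q ∈ F, (if r < q ∧ Bad ℓ (ψ q) (ψ r) q r ∧ ψ q ≤ ψ r
      then ψ q ^ 2 * ψ r ^ 2 else 0) =
      (∑ q ∈ F.filter (fun q => r < q ∧ Bad ℓ (ψ q) (ψ r) q r ∧ ψ q ≤ ψ r), (ψ q) ^ 2) * ψ r ^ 2 := by
      rw [Finset.sum_mul, Finset.sum_filter]
    rw [e]
    exact mul_le_mul_of_nonneg_right (part1 r hr) (sq_nonneg _)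
  have hB : ∑ q ∈ F, ψ q ^ 2 *
        ∑ r ∈ F.filter (fun r => r < q ∧ Bad ℓ (ψ q) (ψ r) q r ∧ ψ r < ψ q), ψ r ^ 2
      ≤ (2 * h + 1) / 4 * ∑ r ∈ F, ψ r ^ 2 := by
    rw [Finset.mul_sum]
    apply Finset.sum_le_sum
    intro q hq
    rw [mul_comm]
    exact mul_le_mul_of_nonneg_right (part2 q hq) (sq_nonneg _)
  linarith

end Pool.Agent.H963R5
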