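import Mathlib
import Pool.Agent.H963R5.Defs

set_option autoImplicit false

namespace Pool.Agent.H963R5

open Finset MeasureTheory Metric

theorem aux1 {A r q : ℝ} (hA : 0 < A) (hA16 : A ≤ 1 / 16) (hr : 0 < r) (hrq : r < q) :
    A * r ≤ 1 / 16 * q := by
  calc A * r ≤ 1 / 16 * r := mul_le_mul_of_nonneg_right hA16 hr.le
    _ ≤ 1 / 16 * q := by linarith

theorem aux2 (δ e : ℝ) : 4 * (2 * δ + 16 * e) ^ 2 ≤ 32 * δ ^ 2 + 2048 * e ^ 2 := by
  nlinarith [sq_nonneg (2 * δ - 16 * e)]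

theorem aux3 {r s H : ℝ} (hs : 1 ≤ s) (hr : 0 < r) (hH : |H| < r) : 0 < r * s - H := by
  have h1 := le_abs_self H
  have h2 : r * 1 ≤ r * s := mul_le_mul_of_nonneg_left hs hr.le
  linarith

theorem aux4 {q t : ℝ} (hq : 0 < q) (h : 0 < q * t) : 0 < t := by
  by_contra hneg
  push Not at hneg
  have := mul_nonpos_of_nonneg_of_nonpos hq.le hneg
  linarith

theorem aux5 {A H : ℝ} (hA : 0 < A) : -(4 * A * H) ≤ 4 * A * |H| := by
  have h1 := neg_abs_le H
  have h2 : 4 * A * (-H) ≤ 4 * A * |H| := mul_le_mul_of_nonneg_left (by linarith) (by positivity)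
  linarith

theorem aux6 (δ e : ℝ) : 4 * (δ + e) ^ 2 ≤ 32 * δ ^ 2 + 8 * e ^ 2 := by
  nlinarith [sq_nonneg (δ - e), sq_nonneg δ]

theorem aux7 {A u s : ℝ} (hA : 0 < A) (hu : 0 < u) (h1 : 8 * A * u ≤ 1) (hs : 0 ≤ s)
    (hss : s ^ 2 = u * A / 2) : A * u ≤ s / 2 := by
  have h10 : (A * u) ^ 2 ≤ (s / 2) ^ 2 := by
    rw [div_pow, hss]
    have : 0 < A * u := by positivity
    nlinarith
  exact le_of_sq_le_sq h10 (by positivity)

theorem aux8 {A B u s : ℝ} (hA : 0 < A) (hB : 0 < B) (hu : 0 < u) (hs : 0 ≤ s)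
    (hss : s ^ 2 = u * A / 2) (h : s / 2 < B * u) :
    8 * A ^ 2 / u ^ 2 ≤ 512 * B ^ 4 := by
  have hsq2 : (s / 2) ^ 2 < (B * u) ^ 2 := pow_lt_pow_left₀ h (by positivity) (by norm_num)
  rw [div_pow, hss] at hsq2
  have hA8 : A < 8 * u * B ^ 2 := by
    have : u * A < u * (8 * u * B ^ 2) := by nlinarith
    exact lt_of_mul_lt_mul_left this hu.le
  rw [div_le_iff₀ (by positivity)]
  have h2 : A ^ 2 ≤ (8 * u * B ^ 2) ^ 2 := pow_le_pow_left₀ hA.le hA8.le 2
  have e : (8 * u * B ^ 2) ^ 2 = 64 * B ^ 4 * u ^ 2 := by ring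
  rw [e] at h2
  linarith

theorem aux9 {A B q r : ℝ} (hA : 0 < A) (hA16 : A ≤ 1 / 16) (hB : 0 < B) (hB16 : B ≤ 1 / 16)
    (hr : 0 < r) (hrq : r < q) : 4 * max (A / q) (B / r) * r ≤ 1 := by
  have hq : 0 < q := by linarith
  have h1 : max (A / q) (B / r) * r ≤ 1 / 16 := by
    rw [max_mul_of_nonneg _ _ hr.le]
    apply max_le
    · rw [div_mul_eq_mul_div, div_le_iff₀ hq]
      exact aux1 hA hA16 hr hrq
    · rw [div_mul_cancel₀ _ hr.ne']; exact hB16
  linarith

open Classical in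
theorem pair_bound (y x₀ : ℝ × ℝ) (ℓ : ℝ) (hℓ : 0 < ℓ) (hℓ1 : ℓ ≤ 1) (q r : ℕ) (hr : 0 < r)
    (hrq : r < q) (A B : ℝ) (hA : 0 < A) (hA16 : A ≤ 1 / 16) (hB : 0 < B) (hB16 : B ≤ 1 / 16)
    (hrℓ : 1 < r * ℓ)
    (S T : Finset (ℤ × ℤ))
    (hS : ∀ a ∈ S, a.1 ∈ JJ q y.1 x₀.1 ℓ ∧ a.2 ∈ JJ q y.2 x₀.2 ℓ)
    (Y : ℕ → Finset ℕ)
    (hY : ∀ u, 2 ≤ u → u ∣ q → 8 * A * u ≤ 1 → ∀ a ∈ S, ∀ n : ℕ, 0 < n → n < u →
        Nat.Coprime n u → ∀ N : ℤ × ℤ, |(n : ℝ) * y.1 - N.1| < Real.sqrt (u * A / 2) →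
        |(n : ℝ) * y.2 - N.2| < Real.sqrt (u * A / 2) → (u : ℤ) ∣ n * a.1 + N.1 →
        (u : ℤ) ∣ n * a.2 + N.2 → n ∈ Y u) :
    (volume : Measure (ℝ × ℝ)).real (Aset y q A S ∩ Aset y r B T) ≤
      32 * A ^ 2 / (q : ℝ) ^ 2 + 2048 * ℓ ^ 2 * (A ^ 2 * B ^ 2)
      + (if Bad ℓ A B q r then 2048 * (A ^ 2 * B ^ 2) else 0)
      + (if G13 A Y q r then 8 * A ^ 2 / (uu q r : ℝ) ^ 2 else 0)
      + (if 8 * B * uu q r < 1 then 512 * B ^ 4 else 0) := by
  have hq : 0 < q := by omega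
  have hqr : (0 : ℝ) < q := by exact_mod_cast hq
  have hrr : (0 : ℝ) < r := by exact_mod_cast hr
  have hε : 0 < A / q := by positivity
  have hε' : 0 < B / r := by positivity
  set Δ := max (A / q) (B / r) with hΔdef
  set δ := min (A / q) (B / r) with hδdef
  have hΔ : 0 < Δ := lt_max_of_lt_left hε
  have hδ : 0 < δ := lt_min hε hε'
  have hδΔ : δ * Δ = (A / q) * (B / r) := min_mul_max _ _
  have hδD : δ * (Δ * q * r) = A * B := by
    have : δ * (Δ * q * r) = (δ * Δ) * (q * r) := by ring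
    rw [this, hδΔ]; field_simp
  have hδA : δ ≤ A / q := min_le_left _ _
  have hrqr : (r : ℝ) < q := by exact_mod_cast hrq
  have h4 : 4 * Δ * r ≤ 1 := aux9 hA hA16 hB hB16 hrr hrqr
  have hmeas := inter_measure_le S T (ctr y q) (ctr y r) (A / q) (B / r) hε hε'
  set PP := (S ×ˢ T).filter (fun p => dist (ctr y q p.1) (ctr y r p.2) < A / q + B / r) with hPP
  rw [← hδdef] at hmeas
  change (volume : Measure (ℝ × ℝ)).real (Aset y q A S ∩ Aset y r B T) ≤ _ at hmeas
  -- coordinates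
  have hcoord : ∀ p ∈ PP,
      |((p.1.1 : ℝ) + y.1) / q - ((p.2.1 : ℝ) + y.1) / r| < A / q + B / r ∧
      |((p.1.2 : ℝ) + y.2) / q - ((p.2.2 : ℝ) + y.2) / r| < A / q + B / r := by
    intro p hp
    rw [hPP, Finset.mem_filter] at hp
    have h := hp.2
    rw [Prod.dist_eq, max_lt_iff, Real.dist_eq, Real.dist_eq] at h
    exact h
  let P1 := PP.image (fun p => (p.1.1, p.2.1))
  let P2 := PP.image (fun p => (p.1.2, p.2.2))
  have hP1 : InStrip q r Δ ℓ y.1 x₀.1 P1 := by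
    intro p hp
    simp only [P1, Finset.mem_image] at hp
    obtain ⟨p', hp', rfl⟩ := hp
    have hs : p'.1 ∈ S := (Finset.mem_product.mp (Finset.mem_filter.mp hp').1).1
    have h1 := mem_JJ.mp (hS _ hs).1
    exact ⟨h1.1, h1.2, strip_of_dist hq hr (hcoord p' hp').1⟩
  have hP2 : InStrip q r Δ ℓ y.2 x₀.2 P2 := by
    intro p hp
    simp only [P2, Finset.mem_image] at hp
    obtain ⟨p', hp', rfl⟩ := hp
    have hs : p'.1 ∈ S := (Finset.mem_product.mp (Finset.mem_filter.mp hp').1).1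
    have h1 := mem_JJ.mp (hS _ hs).2
    exact ⟨h1.1, h1.2, strip_of_dist hq hr (hcoord p' hp').2⟩
  have hcardPP : (PP.card : ℝ) ≤ (P1.card : ℝ) * (P2.card : ℝ) := by
    have h1 : PP.card ≤ (P1 ×ˢ P2).card := by
      apply Finset.card_le_card_of_injOn (fun p => ((p.1.1, p.2.1), (p.1.2, p.2.2)))
      · intro p hp
        simp only [P1, P2, Finset.coe_product, Set.mem_prod, Finset.mem_coe, Finset.mem_image]
        exact ⟨⟨p, hp, rfl⟩, ⟨p, hp, rfl⟩⟩
      · intro p _ p' _ h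
        simp only [Prod.mk.injEq] at h
        obtain ⟨⟨h1, h2⟩, h3, h4⟩ := h
        exact Prod.ext (Prod.ext h1 h3) (Prod.ext h2 h4)
    rw [Finset.card_product] at h1
    exact_mod_cast h1
  have hsq : ∀ K : ℝ, (P1.card : ℝ) ≤ K → (P2.card : ℝ) ≤ K →
      (PP.card : ℝ) * (2 * δ) ^ 2 ≤ K ^ 2 * (2 * δ) ^ 2 := by
    intro K hK1 hK2
    have hK0 : 0 ≤ K := le_trans (by positivity) hK1
    apply mul_le_mul_of_nonneg_right _ (by positivity)
    calc (PP.card : ℝ) ≤ (P1.card : ℝ) * (P2.card : ℝ) := hcardPP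
      _ ≤ K * K := mul_le_mul hK1 hK2 (by positivity) hK0
      _ = K ^ 2 := by ring
  have hδ2 : 32 * δ ^ 2 ≤ 32 * A ^ 2 / (q : ℝ) ^ 2 := by
    have : δ ^ 2 ≤ (A / q) ^ 2 := by gcongr
    rw [div_pow] at this
    calc 32 * δ ^ 2 ≤ 32 * (A ^ 2 / (q : ℝ) ^ 2) := by gcongr
      _ = _ := by ring
  have hnn1 : (0 : ℝ) ≤ if Bad ℓ A B q r then 2048 * (A ^ 2 * B ^ 2) else 0 := by
    split_ifs <;> positivity
  have hnn2 : (0 : ℝ) ≤ if G13 A Y q r then 8 * A ^ 2 / (uu q r : ℝ) ^ 2 else 0 := by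
    split_ifs <;> positivity
  have hnn3 : (0 : ℝ) ≤ if 8 * B * uu q r < 1 then 512 * B ^ 4 else 0 := by
    split_ifs <;> positivity
  have hnn4 : (0 : ℝ) ≤ 2048 * ℓ ^ 2 * (A ^ 2 * B ^ 2) := by positivity
  have hnn5 : (0 : ℝ) ≤ 32 * A ^ 2 / (q : ℝ) ^ 2 := by positivity
  rcases strip_count q r hq hr Δ ℓ hΔ h4 hℓ hℓ1 with h | h | h
  · -- main case
    have hK := hsq (2 + 16 * ℓ * (Δ * q * r)) (h y.1 x₀.1 P1 hP1) (h y.2 x₀.2 P2 hP2)
    have h5 : (2 + 16 * ℓ * (Δ * q * r)) ^ 2 * (2 * δ) ^ 2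
        ≤ 32 * δ ^ 2 + 2048 * ℓ ^ 2 * (A ^ 2 * B ^ 2) := by
      have e : (2 + 16 * ℓ * (Δ * q * r)) ^ 2 * (2 * δ) ^ 2
          = 4 * (2 * δ + 16 * (ℓ * (δ * (Δ * q * r)))) ^ 2 := by ring
      rw [e, hδD]
      have h6 := aux2 δ (ℓ * (A * B))
      have e2 : 2048 * (ℓ * (A * B)) ^ 2 = 2048 * ℓ ^ 2 * (A ^ 2 * B ^ 2) := by ring
      rw [e2] at h6
      exact h6
    linarith
  · -- bad case
    obtain ⟨s, t, H, hs1, hrs, hH0, hHℓ, h8, hb⟩ := h
    have hK := hsq (2 + 16 * (Δ * q * r)) (hb y.1 x₀.1 P1 hP1) (hb y.2 x₀.2 P2 hP2)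
    have h5 : (2 + 16 * (Δ * q * r)) ^ 2 * (2 * δ) ^ 2
        ≤ 32 * δ ^ 2 + 2048 * (A ^ 2 * B ^ 2) := by
      have e : (2 + 16 * (Δ * q * r)) ^ 2 * (2 * δ) ^ 2
          = 4 * (2 * δ + 16 * (δ * (Δ * q * r))) ^ 2 := by ring
      rw [e, hδD]
      have h6 := aux2 δ (A * B)
      have e2 : 2048 * (A * B) ^ 2 = 2048 * (A ^ 2 * B ^ 2) := by ring
      rw [e2] at h6
      exact h6
    have hbad : Bad ℓ A B q r := by
      have hs1r : (1 : ℝ) ≤ s := by exact_mod_cast hs1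
      have hrsr : (r : ℝ) * s - q * t = H := by exact_mod_cast hrs
      have hHlt : |(H : ℝ)| < r := by
        have : |(H : ℝ)| * ℓ < r * ℓ := by linarith
        exact lt_of_mul_lt_mul_right this hℓ.le
      have ht0 : (0 : ℝ) < q * t := by
        have := aux3 hs1r hrr hHlt
        linarith
      have ht1 : (0 : ℝ) < t := aux4 hqr ht0
      have ht2 : 0 < t := by exact_mod_cast ht1
      have h8B : 8 * B * s < 1 := by
        have : B / r ≤ Δ := le_max_right _ _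
        have h9 : 8 * (B / r) * r * s ≤ 8 * Δ * r * s := by gcongr
        have e : 8 * (B / r) * r * s = 8 * B * s := by field_simp
        rw [e] at h9
        linarith
      have h8A : 8 * A * (r * s) < q := by
        have : A / q ≤ Δ := le_max_left _ _
        have h9 : 8 * (A / q) * r * s ≤ 8 * Δ * r * s := by gcongr
        have e : 8 * (A / q) * r * s = 8 * A * (r * s) / q := by field_simp
        rw [e] at h9
        have h10 : 8 * A * (r * s) / q < 1 := by linarith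
        rwa [div_lt_one hqr] at h10
      refine ⟨s.toNat, t.toNat, H, by omega, by omega, ?_, hHℓ, ?_, ?_⟩
      · rw [Int.toNat_of_nonneg (by omega), Int.toNat_of_nonneg ht2.le]; exact hrs
      · have e : ((s.toNat : ℕ) : ℝ) = s := by
          rw [← Int.cast_natCast, Int.toNat_of_nonneg (by omega)]
        rw [e]; exact h8B
      · have e : ((t.toNat : ℕ) : ℝ) = t := by
          rw [← Int.cast_natCast, Int.toNat_of_nonneg ht2.le]
        rw [e]
        -- 4 A t q = 4 A (r s - H) ≤ 4 A r s + 4 A |H| < q/2 + q/4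
        have h11 : 4 * A * t * q < 1 * q := by
          have e2 : 4 * A * t * q = 4 * A * (r * s) - 4 * A * H := by
            have : (q : ℝ) * t = r * s - H := by linarith
            linear_combination (4 * A) * this
          have h12 : -(4 * A * H) ≤ 4 * A * |(H : ℝ)| := aux5 hA
          have h13 : 4 * A * |(H : ℝ)| ≤ 4 * (1 / 16) * q := by
            have : |(H : ℝ)| ≤ q := by linarith
            gcongr
          linarith
        exact lt_of_mul_lt_mul_right h11 hqr.le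
    rw [if_pos hbad]
    linarith
  · -- gcd case
    obtain ⟨h8, hg⟩ := h
    change 8 * Δ * r * ((uu q r : ℕ) : ℝ) < 1 at h8
    have hK := hsq (1 + ℓ * (Nat.gcd q r : ℝ)) (hg y.1 x₀.1 P1 hP1) (hg y.2 x₀.2 P2 hP2)
    rcases PP.eq_empty_or_nonempty with hPPe | ⟨p, hp⟩
    · rw [hPPe] at hmeas
      simp only [Finset.card_empty, Nat.cast_zero, zero_mul] at hmeas
      linarith
    have hu0 : 0 < uu q r := uu_pos hq
    have hv0 : 0 < vv q r := vv_pos hr
    have huv : vv q r < uu q r := vv_lt_uu hr hrq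
    have hur : (0 : ℝ) < uu q r := by exact_mod_cast hu0
    have hvr : (0 : ℝ) < vv q r := by exact_mod_cast hv0
    have huvr : (vv q r : ℝ) < uu q r := by exact_mod_cast huv
    have hqv : (q : ℝ) * vv q r = r * uu q r := by exact_mod_cast uu_mul q r
    have hqg : (q : ℝ) = uu q r * (Nat.gcd q r : ℝ) := by
      have : q = uu q r * Nat.gcd q r := (Nat.div_mul_cancel (Nat.gcd_dvd_left q r)).symm
      exact_mod_cast this
    have hgpos : (0 : ℝ) < (Nat.gcd q r : ℝ) := by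
      exact_mod_cast Nat.gcd_pos_of_pos_left _ hq
    have hδg : δ * (Nat.gcd q r : ℝ) ≤ A / uu q r := by
      calc δ * (Nat.gcd q r : ℝ) ≤ A / q * (Nat.gcd q r : ℝ) := by gcongr
        _ = A / uu q r := by
            rw [hqg]; field_simp
    have h5 : (1 + ℓ * (Nat.gcd q r : ℝ)) ^ 2 * (2 * δ) ^ 2
        ≤ 32 * δ ^ 2 + 8 * A ^ 2 / (uu q r : ℝ) ^ 2 := by
      have e : (1 + ℓ * (Nat.gcd q r : ℝ)) ^ 2 * (2 * δ) ^ 2
          = 4 * (δ + ℓ * (δ * (Nat.gcd q r : ℝ))) ^ 2 := by ring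
      rw [e]
      have h6 : ℓ * (δ * (Nat.gcd q r : ℝ)) ≤ A / uu q r := by
        calc ℓ * (δ * (Nat.gcd q r : ℝ)) ≤ 1 * (δ * (Nat.gcd q r : ℝ)) := by gcongr
          _ ≤ A / uu q r := by rw [one_mul]; exact hδg
      have h7 : (δ + ℓ * (δ * (Nat.gcd q r : ℝ))) ^ 2 ≤ (δ + A / uu q r) ^ 2 :=
        pow_le_pow_left₀ (by positivity) (by linarith) 2
      have h8' := aux6 δ (A / uu q r)
      have e2 : 8 * (A / (uu q r : ℝ)) ^ 2 = 8 * A ^ 2 / (uu q r : ℝ) ^ 2 := by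
        rw [div_pow]; ring
      rw [e2] at h8'
      linarith
    have h8B : 8 * B * uu q r < 1 := by
      have : B / r ≤ Δ := le_max_right _ _
      have h9 : 8 * (B / r) * r * uu q r ≤ 8 * Δ * r * uu q r := by gcongr
      have e : 8 * (B / r) * r * uu q r = 8 * B * uu q r := by field_simp
      rw [e] at h9
      linarith
    have h8A : 8 * A * vv q r < 1 := by
      have : A / q ≤ Δ := le_max_left _ _
      have h9 : 8 * (A / q) * r * uu q r ≤ 8 * Δ * r * uu q r := by gcongr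
      have e : 8 * (A / q) * r * uu q r = 8 * A * vv q r := by
        have : 8 * (A / q) * r * uu q r = 8 * (A / q) * (r * uu q r) := by ring
        rw [this, ← hqv]; field_simp
      rw [e] at h9
      linarith
    by_cases h1 : 1 < 8 * A * uu q r
    · have hG : G13 A Y q r := Or.inl ⟨h1, h8A⟩
      rw [if_pos hG]
      linarith
    push Not at h1
    -- the near-rational integer
    set u := uu q r with hu
    set v := vv q r with hv
    have hpS : p.1 ∈ S := (Finset.mem_product.mp (Finset.mem_filter.mp hp).1).1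
    have hncast : ((u - v : ℕ) : ℝ) = (u : ℝ) - v := Nat.cast_sub huv.le
    have hncastZ : ((u - v : ℕ) : ℤ) = (u : ℤ) - v := Nat.cast_sub huv.le
    have hdist : ∀ α β : ℝ, |α / q - β / r| < A / q + B / r →
        |(v : ℝ) * α - u * β| < A * v + B * u := by
      intro α β hαβ
      have e : (v : ℝ) * α - u * β = (α / q - β / r) * (q * v) := by
        have e1 : (α / q - β / r) * (q * v) = α / q * (q * v) - β / r * (r * u) := by
          rw [← hqv]; ring
        rw [e1]; field_simp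
      rw [e, abs_mul, abs_of_pos (by positivity : (0 : ℝ) < q * v)]
      calc |α / q - β / r| * (q * v) < (A / q + B / r) * (q * v) := by
            apply mul_lt_mul_of_pos_right hαβ (by positivity)
        _ = A / q * (q * v) + B / r * (r * u) := by rw [← hqv]; ring
        _ = A * v + B * u := by field_simp
    by_cases hη : A * v + B * u ≤ Real.sqrt (u * A / 2)
    · have hG : G13 A Y q r := by
        refine Or.inr ⟨h1, ?_⟩
        have hc := hcoord p hp
        have d1 := hdist _ _ hc.1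
        have d2 := hdist _ _ hc.2
        have hcop : Nat.Coprime (u - v) u := by
          have hcuv : Nat.Coprime u v := uu_coprime_vv hq
          have : Nat.Coprime (u - v) v := by
            rw [Nat.coprime_sub_self_left huv.le]; exact hcuv
          have h10 : Nat.Coprime (u - v) (v + (u - v)) := by
            rw [Nat.coprime_add_self_right]; exact this
          rwa [Nat.add_sub_cancel' huv.le] at h10
        refine hY u (by omega) (uu_dvd q r) h1 p.1 hpS (u - v) (by omega) (by omega) hcop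
          ((v : ℤ) * p.1.1 - u * p.2.1, (v : ℤ) * p.1.2 - u * p.2.2) ?_ ?_ ?_ ?_
        · have e : ((u - v : ℕ) : ℝ) * y.1 - (((v : ℤ) * p.1.1 - u * p.2.1 : ℤ) : ℝ)
              = -((v : ℝ) * (p.1.1 + y.1) - u * (p.2.1 + y.1)) := by
            rw [hncast]; push_cast; ring
          rw [e, abs_neg]
          exact lt_of_lt_of_le d1 hη
        · have e : ((u - v : ℕ) : ℝ) * y.2 - (((v : ℤ) * p.1.2 - u * p.2.2 : ℤ) : ℝ)
              = -((v : ℝ) * (p.1.2 + y.2) - u * (p.2.2 + y.2)) := by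
            rw [hncast]; push_cast; ring
          rw [e, abs_neg]
          exact lt_of_lt_of_le d2 hη
        · refine ⟨p.1.1 - p.2.1, ?_⟩
          rw [hncastZ]; ring
        · refine ⟨p.1.2 - p.2.2, ?_⟩
          rw [hncastZ]; ring
      rw [if_pos hG]
      linarith
    · push Not at hη
      rw [if_pos h8B]
      -- A < 8 u B²
      have hsn : 0 ≤ Real.sqrt (u * A / 2) := Real.sqrt_nonneg _
      have hss : Real.sqrt (u * A / 2) ^ 2 = u * A / 2 := Real.sq_sqrt (by positivity)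
      have hAu : A * u ≤ Real.sqrt (u * A / 2) / 2 := aux7 hA hur h1 hsn hss
      have hAv : A * v ≤ A * u := mul_le_mul_of_nonneg_left huvr.le hA.le
      have hBu : Real.sqrt (u * A / 2) / 2 < B * u := by linarith
      have hfin : 8 * A ^ 2 / (u : ℝ) ^ 2 ≤ 512 * B ^ 4 := aux8 hA hB hur hsn hss hBu
      linarith

end Pool.Agent.H963R5
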