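import Mathlib
import Pool.Agent.H963R5.Pair
import Pool.Agent.H963R5.Dbl

set_option autoImplicit false

namespace Pool.Agent.H963R5

open Finset MeasureTheory Metric

/-- the set of points approximated at level `q` -/
def Aq (y : ℝ × ℝ) (ψ : ℕ → ℝ) (q : ℕ) : Set (ℝ × ℝ) :=
  {x | ∃ a : ℤ × ℤ, ‖(q : ℝ) • x - ((a.1 : ℝ), (a.2 : ℝ)) - y‖ < ψ q}

theorem Aset_subset (y : ℝ × ℝ) (ψ : ℕ → ℝ) (q : ℕ) (hq : 0 < q) (S : Finset (ℤ × ℤ)) :
    Aset y q (ψ q) S ⊆ Aq y ψ q := by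
  intro x hx
  simp only [Aset, Set.mem_iUnion, exists_prop] at hx
  obtain ⟨a, _, hxa⟩ := hx
  refine ⟨a, ?_⟩
  have hqr : (0 : ℝ) < q := by exact_mod_cast hq
  rw [mem_ball, Prod.dist_eq, max_lt_iff, Real.dist_eq, Real.dist_eq] at hxa
  simp only [ctr] at hxa
  rw [Prod.norm_def, max_lt_iff]
  simp only [Prod.fst_sub, Prod.snd_sub, Prod.smul_fst, Prod.smul_snd, smul_eq_mul,
    Real.norm_eq_abs]
  constructor
  · have e : (q : ℝ) * x.1 - a.1 - y.1 = q * (x.1 - (a.1 + y.1) / q) := by field_simp; ring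
    rw [e, abs_mul, abs_of_pos hqr]
    have := hxa.1
    rw [lt_div_iff₀ hqr] at this
    linarith
  · have e : (q : ℝ) * x.2 - a.2 - y.2 = q * (x.2 - (a.2 + y.2) / q) := by field_simp; ring
    rw [e, abs_mul, abs_of_pos hqr]
    have := hxa.2
    rw [lt_div_iff₀ hqr] at this
    linarith

theorem Aq_open (y : ℝ × ℝ) (ψ : ℕ → ℝ) (q : ℕ) : IsOpen (Aq y ψ q) := by
  have : Aq y ψ q = ⋃ a : ℤ × ℤ, {x | ‖(q : ℝ) • x - ((a.1 : ℝ), (a.2 : ℝ)) - y‖ < ψ q} := by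
    ext x; simp [Aq]
  rw [this]
  apply isOpen_iUnion
  intro a
  apply isOpen_lt _ continuous_const
  fun_prop

theorem Aset_subset_ball (y x₀ : ℝ × ℝ) (ℓ : ℝ) (q : ℕ) (hq : 0 < q) (A : ℝ)
    (hA : A / q ≤ ℓ / 2) (S : Finset (ℤ × ℤ))
    (hS : ∀ a ∈ S, a.1 ∈ JJ q y.1 x₀.1 ℓ ∧ a.2 ∈ JJ q y.2 x₀.2 ℓ) :
    Aset y q A S ⊆ closedBall (x₀.1 + ℓ / 2, x₀.2 + ℓ / 2) ℓ := by
  intro x hx
  simp only [Aset, Set.mem_iUnion, exists_prop] at hx
  obtain ⟨a, ha, hxa⟩ := hx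
  have hqr : (0 : ℝ) < q := by exact_mod_cast hq
  rw [mem_ball, Prod.dist_eq, max_lt_iff, Real.dist_eq, Real.dist_eq] at hxa
  simp only [ctr] at hxa
  rw [mem_closedBall, Prod.dist_eq, max_le_iff, Real.dist_eq, Real.dist_eq]
  obtain ⟨h1, h2⟩ := hS a ha
  rw [mem_JJ] at h1 h2
  have e1 : x₀.1 ≤ (a.1 + y.1) / q := by rw [le_div_iff₀ hqr]; linarith [h1.1]
  have e2 : (a.1 + y.1) / q ≤ x₀.1 + ℓ := by rw [div_le_iff₀ hqr]; linarith [h1.2]
  have e3 : x₀.2 ≤ (a.2 + y.2) / q := by rw [le_div_iff₀ hqr]; linarith [h2.1]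
  have e4 : (a.2 + y.2) / q ≤ x₀.2 + ℓ := by rw [div_le_iff₀ hqr]; linarith [h2.2]
  have f1 := abs_lt.mp hxa.1
  have f2 := abs_lt.mp hxa.2
  constructor
  · rw [abs_le]; constructor <;> linarith [f1.1, f1.2]
  · rw [abs_le]; constructor <;> linarith [f2.1, f2.2]

theorem ctr_sep (y : ℝ × ℝ) (q : ℕ) (hq : 0 < q) (a b : ℤ × ℤ) (hab : a ≠ b) :
    1 / (q : ℝ) ≤ dist (ctr y q a) (ctr y q b) := by
  have hqr : (0 : ℝ) < q := by exact_mod_cast hq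
  rw [Prod.dist_eq, Real.dist_eq, Real.dist_eq]
  simp only [ctr]
  have e1 : ((a.1 : ℝ) + y.1) / q - (b.1 + y.1) / q = (a.1 - b.1) / q := by ring
  have e2 : ((a.2 : ℝ) + y.2) / q - (b.2 + y.2) / q = (a.2 - b.2) / q := by ring
  rw [e1, e2, abs_div, abs_div, abs_of_pos hqr]
  by_cases h1 : a.1 = b.1
  · have h2 : a.2 ≠ b.2 := fun h2 => hab (Prod.ext h1 h2)
    apply le_max_of_le_right
    apply div_le_div_of_nonneg_right _ hqr.le
    have : (1 : ℤ) ≤ |a.2 - b.2| := Int.one_le_abs (sub_ne_zero.mpr h2)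
    exact_mod_cast this
  · apply le_max_of_le_left
    apply div_le_div_of_nonneg_right _ hqr.le
    have : (1 : ℤ) ≤ |a.1 - b.1| := Int.one_le_abs (sub_ne_zero.mpr h1)
    exact_mod_cast this

theorem Aset_measure (y : ℝ × ℝ) (q : ℕ) (hq : 0 < q) (A : ℝ) (hA : 0 < A) (hA16 : A ≤ 1 / 16)
    (S : Finset (ℤ × ℤ)) :
    (volume : Measure (ℝ × ℝ)).real (Aset y q A S) = (S.card : ℝ) * (2 * (A / q)) ^ 2 := by
  classical
  have hqr : (0 : ℝ) < q := by exact_mod_cast hq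
  apply union_measure_eq S (ctr y q) (A / q) (by positivity)
  intro a _ b _ hab
  refine le_trans ?_ (ctr_sep y q hq a b hab)
  rw [← mul_div_assoc]
  apply div_le_div_of_nonneg_right _ hqr.le
  linarith

open Classical in
/-- The sum over one of the two gcd cases, fixed `q`. -/
theorem G13_total (F : Finset ℕ) (A : ℝ) (hA : 0 < A) (hA16 : A ≤ 1 / 16) (q : ℕ) (hq : 0 < q)
    (hF : ∀ r ∈ F, 0 < r) (Y : ℕ → Finset ℕ)
    (hY : ∀ u, 2 ≤ u → u ∣ q → 8 * A * u ≤ 1 → ((Y u).card : ℝ) ≤ 16 * u * Real.sqrt (u * A / 2)) :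
    ∑ r ∈ F.filter (fun r => r < q),
      (if G13 A Y q r then 8 * A ^ 2 / (uu q r : ℝ) ^ 2 else 0) ≤ 72 * A ^ 2 := by
  let E1 := F.filter (fun r => r < q ∧ (1 < 8 * A * uu q r ∧ 8 * A * vv q r < 1))
  let E3 := F.filter (fun r => r < q ∧ (8 * A * uu q r ≤ 1 ∧ (uu q r - vv q r) ∈ Y (uu q r)))
  have h1 := G1_sum A hA hA16 q hq E1 (by
    intro r hr
    simp only [E1, Finset.mem_filter] at hr
    exact ⟨hF r hr.1, hr.2.1, hr.2.2⟩)
  have h3 := G3_sum A hA q hq E3 Y hY (by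
    intro r hr
    simp only [E3, Finset.mem_filter] at hr
    exact ⟨hF r hr.1, hr.2.1, hr.2.2⟩)
  have h2 : ∑ r ∈ F.filter (fun r => r < q),
      (if G13 A Y q r then 8 * A ^ 2 / (uu q r : ℝ) ^ 2 else 0)
      ≤ ∑ r ∈ E1, 8 * A ^ 2 / (uu q r : ℝ) ^ 2 + ∑ r ∈ E3, 8 * A ^ 2 / (uu q r : ℝ) ^ 2 := by
    simp only [E1, E3, Finset.sum_filter]
    rw [← Finset.sum_add_distrib]
    apply Finset.sum_le_sum
    intro r _
    have hpos : 0 ≤ 8 * A ^ 2 / (uu q r : ℝ) ^ 2 := by positivity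
    by_cases hrq : r < q
    · rw [if_pos hrq]
      by_cases hG : G13 A Y q r
      · rw [if_pos hG]
        rcases hG with hG | hG
        · rw [if_pos ⟨hrq, hG⟩]
          have : (0 : ℝ) ≤ if r < q ∧ (8 * A * uu q r ≤ 1 ∧ (uu q r - vv q r) ∈ Y (uu q r)) then
            8 * A ^ 2 / (uu q r : ℝ) ^ 2 else 0 := by split_ifs <;> positivity
          linarith
        · have h5 : (0 : ℝ) ≤ if r < q ∧ (1 < 8 * A * uu q r ∧ 8 * A * vv q r < 1) then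
            8 * A ^ 2 / (uu q r : ℝ) ^ 2 else 0 := by split_ifs <;> positivity
          rw [if_pos (⟨hrq, hG⟩ : r < q ∧ (8 * A * uu q r ≤ 1 ∧ (uu q r - vv q r) ∈ Y (uu q r)))]
          linarith
      · rw [if_neg hG]
        apply add_nonneg <;> (split_ifs <;> positivity)
    · rw [if_neg hrq]
      apply add_nonneg <;> (split_ifs <;> positivity)
  linarith

/-- a finite family of approximation sets with large total weight covers a fixed proportion of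
any small square -/
theorem family_bound (y x₀ : ℝ × ℝ) (ℓ : ℝ) (hℓ : 0 < ℓ) (hℓ1 : ℓ ≤ 1) (ψ : ℕ → ℝ)
    (F : Finset ℕ) (hψ : ∀ q ∈ F, 0 < ψ q ∧ ψ q ≤ 1 / 16)
    (hF : ∀ q ∈ F, 0 < q ∧ 48 ≤ Real.sqrt q * ℓ)
    (hV : (2304 + 2048 * (2 * (⌊1 / ℓ⌋₊ : ℝ) + 1)) / ℓ ^ 2 ≤ ∑ q ∈ F, ψ q ^ 2)
    (W : Set (ℝ × ℝ)) (hW : MeasurableSet W) (hFW : ∀ q ∈ F, Aq y ψ q ⊆ W) :
    ℓ ^ 2 / 20000 ≤ (volume : Measure (ℝ × ℝ)).real
      (W ∩ closedBall (x₀.1 + ℓ / 2, x₀.2 + ℓ / 2) ℓ) := by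
  classical
  have hdata : ∀ q, ∃ (S : Finset (ℤ × ℤ)) (Y : ℕ → Finset ℕ), q ∈ F →
      (∀ a ∈ S, a.1 ∈ JJ q y.1 x₀.1 ℓ ∧ a.2 ∈ JJ q y.2 x₀.2 ℓ) ∧
      (q * ℓ) ^ 2 / 8 ≤ (S.card : ℝ) ∧
      (∀ u, 2 ≤ u → u ∣ q → 8 * ψ q * u ≤ 1 →
        ((Y u).card : ℝ) ≤ 16 * u * Real.sqrt (u * ψ q / 2)) ∧
      (∀ u, 2 ≤ u → u ∣ q → 8 * ψ q * u ≤ 1 → ∀ a ∈ S, ∀ n : ℕ, 0 < n → n < u →
        Nat.Coprime n u → ∀ N : ℤ × ℤ, |(n : ℝ) * y.1 - N.1| < Real.sqrt (u * ψ q / 2) →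
        |(n : ℝ) * y.2 - N.2| < Real.sqrt (u * ψ q / 2) → (u : ℤ) ∣ n * a.1 + N.1 →
        (u : ℤ) ∣ n * a.2 + N.2 → n ∈ Y u) := by
    intro q
    by_cases hq : q ∈ F
    · obtain ⟨S, Y, h⟩ := exists_S y (ψ q) (hψ q hq).1 q (hF q hq).1 x₀ ℓ hℓ hℓ1 (hF q hq).2
      exact ⟨S, Y, fun _ => h⟩
    · exact ⟨∅, fun _ => ∅, fun h => absurd h hq⟩
  choose S Y hSY using hdata
  let X : ℕ → Set (ℝ × ℝ) := fun q => Aset y q (ψ q) (S q)
  have hXm : ∀ q ∈ F, MeasurableSet (X q) := fun q _ =>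
    Finset.measurableSet_biUnion _ (fun _ _ => measurableSet_ball)
  -- size facts
  have hqbig : ∀ q ∈ F, 48 ≤ (q : ℝ) * ℓ ∧ (1 : ℝ) ≤ q := by
    intro q hq
    obtain ⟨h0, h1⟩ := hF q hq
    have hq1 : (1 : ℝ) ≤ q := by exact_mod_cast h0
    have hs : Real.sqrt q ≤ q := by
      rw [Real.sqrt_le_left (by linarith)]; nlinarith
    refine ⟨?_, hq1⟩
    calc (48 : ℝ) ≤ Real.sqrt q * ℓ := h1
      _ ≤ q * ℓ := by gcongr
  have hXball : ∀ q ∈ F, X q ⊆ closedBall (x₀.1 + ℓ / 2, x₀.2 + ℓ / 2) ℓ := by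
    intro q hq
    obtain ⟨h1, h2⟩ := hqbig q hq
    apply Aset_subset_ball y x₀ ℓ q (hF q hq).1 (ψ q) _ (S q) (hSY q hq).1
    rw [div_le_iff₀ (by linarith)]
    have := (hψ q hq).2
    nlinarith
  have hXW : ∀ q ∈ F, X q ⊆ W := fun q hq => (Aset_subset y ψ q (hF q hq).1 (S q)).trans (hFW q hq)
  have hXfin : ∀ q ∈ F, (volume : Measure (ℝ × ℝ)) (X q) ≠ ⊤ := fun q hq =>
    ne_top_of_le_ne_top measure_closedBall_lt_top.ne (measure_mono (hXball q hq))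
  have hmeas : ∀ q ∈ F, (volume : Measure (ℝ × ℝ)).real (X q) = (S q).card * (2 * (ψ q / q)) ^ 2 :=
    fun q hq => Aset_measure y q (hF q hq).1 (ψ q) (hψ q hq).1 (hψ q hq).2 (S q)
  have hlow : ∀ q ∈ F, ℓ ^ 2 / 2 * ψ q ^ 2 ≤ (volume : Measure (ℝ × ℝ)).real (X q) := by
    intro q hq
    rw [hmeas q hq]
    have hq0 : (0 : ℝ) < q := by linarith [(hqbig q hq).2]
    have h1 := (hSY q hq).2.1
    calc ℓ ^ 2 / 2 * ψ q ^ 2 = (q * ℓ) ^ 2 / 8 * (2 * (ψ q / q)) ^ 2 := by field_simp; ring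
      _ ≤ (S q).card * (2 * (ψ q / q)) ^ 2 := by gcongr
  have hup : ∀ q ∈ F, (volume : Measure (ℝ × ℝ)).real (X q) ≤ 16 * ψ q ^ 2 := by
    intro q hq
    rw [hmeas q hq]
    obtain ⟨h48, hq1⟩ := hqbig q hq
    have hq0 : (0 : ℝ) < q := by linarith
    have hsub : S q ⊆ JJ q y.1 x₀.1 ℓ ×ˢ JJ q y.2 x₀.2 ℓ := by
      intro a ha
      rw [Finset.mem_product]
      exact (hSY q hq).1 a ha
    have hc := Finset.card_le_card hsub
    rw [Finset.card_product] at hc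
    have hc' : ((S q).card : ℝ) ≤ ((JJ q y.1 x₀.1 ℓ).card : ℝ) * ((JJ q y.2 x₀.2 ℓ).card : ℝ) := by
      exact_mod_cast hc
    have h1 := card_JJ_le q y.1 x₀.1 ℓ hℓ.le
    have h2 := card_JJ_le q y.2 x₀.2 ℓ hℓ.le
    have h3 : (1 : ℝ) + q * ℓ ≤ 2 * q := by nlinarith
    have hcS : ((S q).card : ℝ) ≤ (2 * q) * (2 * q) :=
      hc'.trans (mul_le_mul (h1.trans h3) (h2.trans h3) (by positivity) (by positivity))
    calc ((S q).card : ℝ) * (2 * (ψ q / q)) ^ 2 ≤ (2 * q) * (2 * q) * (2 * (ψ q / q)) ^ 2 := by gcongr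
      _ = 16 * ψ q ^ 2 := by field_simp; ring
  set V := ∑ q ∈ F, ψ q ^ 2 with hVdef
  set h := (⌊1 / ℓ⌋₊ : ℝ) with hhdef
  have hh0 : 0 ≤ h := by positivity
  have hV0 : 0 < V := lt_of_lt_of_le (by positivity) hV
  -- numerator
  have hnum : ℓ ^ 2 / 2 * V ≤ ∑ q ∈ F, (volume : Measure (ℝ × ℝ)).real (X q) := by
    rw [hVdef, Finset.mul_sum]
    exact Finset.sum_le_sum hlow
  -- off-diagonal
  have hoff : ∑ q ∈ F, ∑ r ∈ F.filter (fun r => r < q), (volume : Measure (ℝ × ℝ)).real (X q ∩ X r)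
      ≤ 2048 * ℓ ^ 2 * V ^ 2 + (112 + 1024 * (2 * h + 1)) * V := by
    have hpair : ∀ q ∈ F, ∀ r ∈ F.filter (fun r => r < q),
        (volume : Measure (ℝ × ℝ)).real (X q ∩ X r) ≤
        32 * ψ q ^ 2 / (q : ℝ) ^ 2 + 2048 * ℓ ^ 2 * (ψ q ^ 2 * ψ r ^ 2)
        + (if Bad ℓ (ψ q) (ψ r) q r then 2048 * (ψ q ^ 2 * ψ r ^ 2) else 0)
        + (if G13 (ψ q) (Y q) q r then 8 * ψ q ^ 2 / (uu q r : ℝ) ^ 2 else 0)
        + (if 8 * ψ r * uu q r < 1 then 512 * ψ r ^ 4 else 0) := by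
      intro q hq r hr
      rw [Finset.mem_filter] at hr
      exact pair_bound y x₀ ℓ hℓ hℓ1 q r (hF r hr.1).1 hr.2 (ψ q) (ψ r) (hψ q hq).1 (hψ q hq).2
        (hψ r hr.1).1 (hψ r hr.1).2 (by linarith [(hqbig r hr.1).1]) (S q) (S r) (hSY q hq).1
        (Y q) (hSY q hq).2.2.2
    have hsum := Finset.sum_le_sum (fun q hq => Finset.sum_le_sum (hpair q hq))
    refine hsum.trans ?_
    simp only [Finset.sum_add_distrib]
    -- term 1
    have t1 : ∑ q ∈ F, ∑ r ∈ F.filter (fun r => r < q), 32 * ψ q ^ 2 / (q : ℝ) ^ 2 ≤ 32 * V := by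
      rw [hVdef, Finset.mul_sum]
      apply Finset.sum_le_sum
      intro q hq
      have hq1 := (hqbig q hq).2
      rw [Finset.sum_const, nsmul_eq_mul]
      have hc : ((F.filter (fun r => r < q)).card : ℝ) ≤ q := by
        have : F.filter (fun r => r < q) ⊆ Finset.range q := by
          intro r hr
          rw [Finset.mem_filter] at hr
          exact Finset.mem_range.mpr hr.2
        have := Finset.card_le_card this
        rw [Finset.card_range] at this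
        exact_mod_cast this
      calc ((F.filter (fun r => r < q)).card : ℝ) * (32 * ψ q ^ 2 / (q : ℝ) ^ 2)
          ≤ q * (32 * ψ q ^ 2 / (q : ℝ) ^ 2) := by gcongr
        _ = 32 * ψ q ^ 2 / q := by field_simp
        _ ≤ 32 * ψ q ^ 2 := div_le_self (by positivity) hq1
    -- term 2
    have t2 : ∑ q ∈ F, ∑ r ∈ F.filter (fun r => r < q), 2048 * ℓ ^ 2 * (ψ q ^ 2 * ψ r ^ 2)
        ≤ 2048 * ℓ ^ 2 * V ^ 2 := by
      calc ∑ q ∈ F, ∑ r ∈ F.filter (fun r => r < q), 2048 * ℓ ^ 2 * (ψ q ^ 2 * ψ r ^ 2)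
          ≤ ∑ q ∈ F, ∑ r ∈ F, 2048 * ℓ ^ 2 * (ψ q ^ 2 * ψ r ^ 2) := by
            apply Finset.sum_le_sum
            intro q _
            apply Finset.sum_le_sum_of_subset_of_nonneg (Finset.filter_subset _ _)
            intro r _ _; positivity
        _ = 2048 * ℓ ^ 2 * V ^ 2 := by
            rw [hVdef, sq (∑ q ∈ F, ψ q ^ 2), Finset.sum_mul_sum, Finset.mul_sum]
            apply Finset.sum_congr rfl
            intro q _
            rw [Finset.mul_sum]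
    -- term 3
    have t3 := bad_total F ψ ℓ hℓ hψ (fun q hq => (hF q hq).1)
    -- term 4
    have t4 : ∑ q ∈ F, ∑ r ∈ F.filter (fun r => r < q),
        (if G13 (ψ q) (Y q) q r then 8 * ψ q ^ 2 / (uu q r : ℝ) ^ 2 else 0) ≤ 72 * V := by
      rw [hVdef, Finset.mul_sum]
      apply Finset.sum_le_sum
      intro q hq
      exact G13_total F (ψ q) (hψ q hq).1 (hψ q hq).2 q (hF q hq).1 (fun r hr => (hF r hr).1)
        (Y q) (hSY q hq).2.2.1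
    -- term 5
    have t5 : ∑ q ∈ F, ∑ r ∈ F.filter (fun r => r < q),
        (if 8 * ψ r * uu q r < 1 then 512 * ψ r ^ 4 else 0) ≤ 8 * V := by
      simp only [Finset.sum_filter]
      rw [Finset.sum_comm, hVdef, Finset.mul_sum]
      apply Finset.sum_le_sum
      intro r hr
      have h5 := G2_sum (ψ r) (hψ r hr).1 r (hF r hr).1
        (F.filter (fun q => r < q ∧ 8 * ψ r * uu q r < 1)) (by
          intro q hq
          rw [Finset.mem_filter] at hq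
          exact hq.2)
      refine le_trans (le_of_eq ?_) h5
      rw [Finset.sum_filter]
      apply Finset.sum_congr rfl
      intro q _
      by_cases h1 : r < q
      · by_cases h2 : 8 * ψ r * uu q r < 1
        · rw [if_pos h1, if_pos h2, if_pos ⟨h1, h2⟩]
        · rw [if_pos h1, if_neg h2, if_neg (by tauto)]
      · rw [if_neg h1, if_neg (by tauto)]
    rw [← hVdef, ← hhdef] at t3
    linarith
  have hdiag : ∑ q ∈ F, (volume : Measure (ℝ × ℝ)).real (X q ∩ X q) ≤ 16 * V := by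
    rw [hVdef, Finset.mul_sum]
    apply Finset.sum_le_sum
    intro q hq
    rw [Set.inter_self]
    exact hup q hq
  have htot : ∑ q ∈ F, ∑ r ∈ F, (volume : Measure (ℝ × ℝ)).real (X q ∩ X r)
      ≤ 4097 * ℓ ^ 2 * V ^ 2 := by
    rw [sym_sum F (fun q r => (volume : Measure (ℝ × ℝ)).real (X q ∩ X r))
      (fun q r => by simp only [Set.inter_comm])]
    have h1 : (240 + 2048 * (2 * h + 1)) * V ≤ ℓ ^ 2 * V ^ 2 := by
      have h2 : 2304 + 2048 * (2 * h + 1) ≤ V * ℓ ^ 2 := by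
        rwa [div_le_iff₀ (by positivity)] at hV
      have h3 : 240 + 2048 * (2 * h + 1) ≤ V * ℓ ^ 2 := by linarith
      calc (240 + 2048 * (2 * h + 1)) * V ≤ (V * ℓ ^ 2) * V := by gcongr
        _ = ℓ ^ 2 * V ^ 2 := by ring
    linarith
  have hCE := chung_erdos (volume : Measure (ℝ × ℝ)) F X hXm hXfin
  have hU : (volume : Measure (ℝ × ℝ)).real (⋃ q ∈ F, X q)
      ≤ (volume : Measure (ℝ × ℝ)).real (W ∩ closedBall (x₀.1 + ℓ / 2, x₀.2 + ℓ / 2) ℓ) := by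
    apply measureReal_mono
    · intro x hx
      simp only [Set.mem_iUnion, exists_prop] at hx
      obtain ⟨q, hq, hxq⟩ := hx
      exact ⟨hXW q hq hxq, hXball q hq hxq⟩
    · exact ne_top_of_le_ne_top measure_closedBall_lt_top.ne (measure_mono Set.inter_subset_right)
  refine le_trans ?_ hU
  set m := (volume : Measure (ℝ × ℝ)).real (⋃ q ∈ F, X q) with hm
  have hm0 : 0 ≤ m := measureReal_nonneg
  have hsq : (ℓ ^ 2 / 2 * V) ^ 2 ≤ (∑ q ∈ F, (volume : Measure (ℝ × ℝ)).real (X q)) ^ 2 :=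
    pow_le_pow_left₀ (by positivity) hnum 2
  have h1 : (ℓ ^ 2 / 2 * V) ^ 2 ≤ m * (4097 * ℓ ^ 2 * V ^ 2) :=
    hsq.trans (hCE.trans (mul_le_mul_of_nonneg_left htot hm0))
  have h2 : (ℓ ^ 2 * V ^ 2) * (ℓ ^ 2 / 4) ≤ (ℓ ^ 2 * V ^ 2) * (m * 4097) := by
    calc (ℓ ^ 2 * V ^ 2) * (ℓ ^ 2 / 4) = (ℓ ^ 2 / 2 * V) ^ 2 := by ring
      _ ≤ m * (4097 * ℓ ^ 2 * V ^ 2) := h1
      _ = (ℓ ^ 2 * V ^ 2) * (m * 4097) := by ring
  have h3 : ℓ ^ 2 / 4 ≤ m * 4097 := le_of_mul_le_mul_left h2 (by positivity)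
  have h4 : 0 ≤ ℓ ^ 2 := by positivity
  linarith

end Pool.Agent.H963R5
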